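import Mathlib

/-!
Angular sectors of the complex plane.
-/

set_option autoImplicit false

namespace Q47.Setup

open Complex

/-- The unit vector with angle `t`. -/
noncomputable def dir (t : ℝ) : ℂ := Complex.exp (t * I)

theorem dir_re (t : ℝ) : (dir t).re = Real.cos t := by
  rw [dir, Complex.exp_ofReal_mul_I_re]

theorem dir_im (t : ℝ) : (dir t).im = Real.sin t := by
  rw [dir, Complex.exp_ofReal_mul_I_im]

theorem dir_add (s t : ℝ) : dir (s + t) = dir s * dir t := by
  rw [dir, dir, dir, ← Complex.exp_add]; push_cast; ring_nf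

theorem dir_zero : dir 0 = 1 := by simp [dir]

theorem dir_ne (t : ℝ) : dir t ≠ 0 := Complex.exp_ne_zero _

theorem norm_dir (t : ℝ) : ‖dir t‖ = 1 := by rw [dir, Complex.norm_exp_ofReal_mul_I]

theorem dir_two_pi : dir (2 * Real.pi) = 1 := by
  rw [dir]; push_cast; exact Complex.exp_two_pi_mul_I

theorem dir_add_int (t : ℝ) (m : ℤ) : dir (t + m * (2 * Real.pi)) = dir t := by
  rw [dir, dir, Complex.exp_eq_exp_iff_exists_int]
  exact ⟨m, by push_cast; ring⟩

theorem dir_eq_iff {s t : ℝ} : dir s = dir t ↔ ∃ m : ℤ, s = t + m * (2 * Real.pi) := by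
  rw [dir, dir, Complex.exp_eq_exp_iff_exists_int]
  constructor
  · rintro ⟨m, hm⟩
    refine ⟨m, ?_⟩
    have h := congrArg Complex.im hm
    simp at h
    linarith
  · rintro ⟨m, rfl⟩
    exact ⟨m, by push_cast; ring⟩

/-- Angle of a positive combination in a sector. -/
theorem angle_of_comb {D p q : ℝ} (hD : 0 < D) (hD' : D < Real.pi) (hp : 0 ≤ p) (hq : 0 ≤ q)
    (h0 : 0 < p + q) : ∃ ψ ρ : ℝ, 0 ≤ ψ ∧ ψ ≤ D ∧ 0 < ρ ∧ (p : ℂ) + q * dir D = ρ * dir ψ ∧
      (0 < p → ψ < D) ∧ (0 < q → 0 < ψ) := by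
  have hsD : 0 < Real.sin D := Real.sin_pos_of_pos_of_lt_pi hD hD'
  set z : ℂ := (p : ℂ) + q * dir D with hz
  have hre : z.re = p + q * Real.cos D := by simp [hz, dir_re]
  have him : z.im = q * Real.sin D := by simp [hz, dir_im]
  have hz0 : z ≠ 0 := by
    intro h
    have h1 : z.im = 0 := by rw [h]; rfl
    have h2 : z.re = 0 := by rw [h]; rfl
    rw [him] at h1
    have hq0 : q = 0 := by
      rcases mul_eq_zero.mp h1 with h | h
      · exact h
      · exact absurd h hsD.ne'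
    rw [hre, hq0] at h2
    rw [hq0] at h0
    linarith
  have hn : 0 < ‖z‖ := norm_pos_iff.mpr hz0
  have e1 : ‖z‖ * Real.cos z.arg = z.re := Complex.norm_mul_cos_arg z
  have e2 : ‖z‖ * Real.sin z.arg = z.im := Complex.norm_mul_sin_arg z
  have harg0 : 0 ≤ z.arg := by
    rw [Complex.arg_nonneg_iff, him]; positivity
  have hargpi : z.arg ≤ Real.pi := Complex.arg_le_pi z
  have e3 : ‖z‖ * Real.sin (D - z.arg) = p * Real.sin D := by
    rw [Real.sin_sub]
    have : ‖z‖ * (Real.sin D * Real.cos z.arg - Real.cos D * Real.sin z.arg) =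
        Real.sin D * (‖z‖ * Real.cos z.arg) - Real.cos D * (‖z‖ * Real.sin z.arg) := by ring
    rw [this, e1, e2, hre, him]; ring
  refine ⟨z.arg, ‖z‖, harg0, ?_, hn, ?_, ?_, ?_⟩
  · by_contra hc
    push Not at hc
    have h1 : Real.sin (D - z.arg) < 0 :=
      Real.sin_neg_of_neg_of_neg_pi_lt (by linarith) (by linarith)
    have h2 : 0 ≤ p * Real.sin D := by positivity
    nlinarith
  · rw [dir]; exact (Complex.norm_mul_exp_arg_mul_I z).symm
  · intro hp'
    by_contra hc
    push Not at hc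
    have h1 : Real.sin (D - z.arg) ≤ 0 :=
      Real.sin_nonpos_of_nonpos_of_neg_pi_le (by linarith) (by linarith)
    have h2 : 0 < p * Real.sin D := by positivity
    nlinarith
  · intro hq'
    rcases harg0.lt_or_eq with h | h
    · exact h
    · exfalso
      rw [← h, Real.sin_zero, mul_zero, him] at e2
      have : 0 < q * Real.sin D := by positivity
      linarith

/-- A direction in a sector is a nonnegative combination. -/
theorem comb_of_angle {D ψ : ℝ} (hD : 0 < D) (hD' : D < Real.pi) (h0 : 0 ≤ ψ) (h1 : ψ ≤ D) :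
    ∃ p q : ℝ, 0 ≤ p ∧ 0 ≤ q ∧ (p : ℂ) + q * dir D = dir ψ := by
  have hsD : 0 < Real.sin D := Real.sin_pos_of_pos_of_lt_pi hD hD'
  refine ⟨Real.sin (D - ψ) / Real.sin D, Real.sin ψ / Real.sin D, ?_, ?_, ?_⟩
  · exact div_nonneg (Real.sin_nonneg_of_nonneg_of_le_pi (by linarith) (by linarith)) hsD.le
  · exact div_nonneg (Real.sin_nonneg_of_nonneg_of_le_pi h0 (by linarith)) hsD.le
  · apply Complex.ext
    · simp only [Complex.add_re, Complex.ofReal_re, Complex.mul_re, Complex.ofReal_im, dir_re,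
        dir_im]
      rw [Real.sin_sub]
      field_simp
      ring_nf
    · simp only [Complex.add_im, Complex.ofReal_im, Complex.mul_im, Complex.ofReal_re, dir_re,
        dir_im]
      field_simp
      ring

theorem exists_index (θ : ℕ → ℝ) (N : ℕ) {x : ℝ} (h0 : θ 0 ≤ x) (h1 : x < θ N) :
    ∃ i < N, θ i ≤ x ∧ x < θ (i + 1) := by
  induction N with
  | zero => exact absurd h1 (not_lt.mpr h0)
  | succ N ih =>
    rcases lt_or_ge x (θ N) with h | h
    · obtain ⟨i, hi, h⟩ := ih h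
      exact ⟨i, by omega, h⟩
    · exact ⟨N, by omega, h, h1⟩

/-- Angular data of a star shaped polygon. -/
structure Fan (N : ℕ) (θ r : ℕ → ℝ) : Prop where
  pos : 0 < N
  r_pos : ∀ i ≤ N, 0 < r i
  lt : ∀ i < N, θ i < θ (i + 1)
  gap : ∀ i < N, θ (i + 1) - θ i < Real.pi
  turn : θ N = θ 0 + 2 * Real.pi
  r_turn : r N = r 0

/-- The vertices. -/
noncomputable def vert (θ r : ℕ → ℝ) (i : ℕ) : ℂ := (r i : ℂ) * dir (θ i)

variable {N : ℕ} {θ r : ℕ → ℝ}

theorem Fan.mono (F : Fan N θ r) {i j : ℕ} (hij : i ≤ j) (hj : j ≤ N) : θ i ≤ θ j := by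
  induction j with
  | zero =>
    have : i = 0 := by omega
    rw [this]
  | succ j ih =>
    rcases Nat.lt_or_ge i (j + 1) with h | h
    · exact (ih (by omega) (by omega)).trans (F.lt j (by omega)).le
    · have : i = j + 1 := by omega
      rw [this]

theorem Fan.vert_turn (F : Fan N θ r) : vert θ r N = vert θ r 0 := by
  rw [vert, vert, F.r_turn, F.turn, dir_add, dir_two_pi, mul_one]

theorem vert_succ (θ r : ℕ → ℝ) (i : ℕ) :
    vert θ r (i + 1) = (r (i + 1) : ℂ) * (dir (θ i) * dir (θ (i + 1) - θ i)) := by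
  rw [vert, ← dir_add]; ring_nf

/-- Every nonzero point is in a sector. -/
theorem Fan.cover (F : Fan N θ r) (z : ℂ) :
    ∃ i < N, ∃ a b : ℝ, 0 ≤ a ∧ 0 ≤ b ∧ z = a * vert θ r i + b * vert θ r (i + 1) := by
  rcases eq_or_ne z 0 with rfl | hz
  · exact ⟨0, F.pos, 0, 0, le_rfl, le_rfl, by simp⟩
  · set φ := toIcoMod Real.two_pi_pos (θ 0) z.arg with hφ
    have h1 := toIcoMod_mem_Ico Real.two_pi_pos (θ 0) z.arg
    rw [← hφ] at h1
    obtain ⟨i, hi, h2, h3⟩ := exists_index θ N h1.1 (by rw [F.turn]; exact h1.2)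
    have hzφ : z = ‖z‖ * dir φ := by
      have h4 : z.arg = φ + (toIcoDiv Real.two_pi_pos (θ 0) z.arg : ℤ) * (2 * Real.pi) := by
        have := self_sub_toIcoMod_eq_mul Real.two_pi_pos (θ 0) z.arg
        rw [← hφ] at this
        linarith
      have h5 : dir z.arg = dir φ := dir_eq_iff.mpr ⟨_, h4⟩
      rw [← h5, dir]
      exact (Complex.norm_mul_exp_arg_mul_I z).symm
    obtain ⟨p, q, hp, hq, hpq⟩ := comb_of_angle (D := θ (i + 1) - θ i) (ψ := φ - θ i)
      (by linarith [F.lt i hi]) (F.gap i hi) (by linarith) (by linarith)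
    refine ⟨i, hi, ‖z‖ * p / r i, ‖z‖ * q / r (i + 1), ?_, ?_, ?_⟩
    · have := F.r_pos i hi.le
      positivity
    · have := F.r_pos (i + 1) hi
      positivity
    · have hri : (r i : ℂ) ≠ 0 := by exact_mod_cast (F.r_pos i hi.le).ne'
      have hri1 : (r (i + 1) : ℂ) ≠ 0 := by exact_mod_cast (F.r_pos (i + 1) hi).ne'
      have h6 : dir φ = dir (θ i) * dir (φ - θ i) := by rw [← dir_add]; ring_nf
      conv_lhs => rw [hzφ, h6, ← hpq]
      rw [vert_succ, vert]
      push_cast
      field_simp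

/-- The angle of a point of a sector. -/
theorem Fan.angle (F : Fan N θ r) {i : ℕ} (hi : i < N) {a b : ℝ} (ha : 0 ≤ a) (hb : 0 ≤ b)
    (hab : 0 < a + b) : ∃ φ ρ : ℝ, θ i ≤ φ ∧ φ ≤ θ (i + 1) ∧ 0 < ρ ∧
      a * vert θ r i + b * vert θ r (i + 1) = ρ * dir φ ∧
      (0 < a → φ < θ (i + 1)) ∧ (0 < b → θ i < φ) := by
  have hr := F.r_pos i hi.le
  have hr1 := F.r_pos (i + 1) hi
  have h0 : 0 < a * r i + b * r (i + 1) := by
    rcases ha.lt_or_eq with h | h
    · have : 0 ≤ b * r (i + 1) := by positivity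
      have : 0 < a * r i := by positivity
      linarith
    · have hb' : 0 < b := by linarith
      have : 0 ≤ a * r i := by positivity
      have : 0 < b * r (i + 1) := by positivity
      linarith
  obtain ⟨ψ, ρ, h1, h2, h3, h4, h5, h6⟩ := angle_of_comb (D := θ (i + 1) - θ i)
    (p := a * r i) (q := b * r (i + 1)) (by linarith [F.lt i hi]) (F.gap i hi)
    (by positivity) (by positivity) h0
  refine ⟨θ i + ψ, ρ, by linarith, by linarith, h3, ?_, ?_, ?_⟩
  · rw [vert_succ, vert, dir_add]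
    have : (a : ℂ) * ((r i : ℂ) * dir (θ i)) + b * ((r (i + 1) : ℂ) *
        (dir (θ i) * dir (θ (i + 1) - θ i))) =
        dir (θ i) * ((↑(a * r i) : ℂ) + ↑(b * r (i + 1)) * dir (θ (i + 1) - θ i)) := by
      push_cast; ring
    rw [this, h4]; ring
  · intro h
    have := h5 (by positivity)
    linarith
  · intro h
    have := h6 (by positivity)
    linarith

/-- The open sectors do not meet the other closed sectors. -/
theorem Fan.disj (F : Fan N θ r) {i j : ℕ} (hi : i < N) (hj : j < N) (hij : i ≠ j)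
    {a b a' b' : ℝ} (ha : 0 < a) (hb : 0 < b) (ha' : 0 ≤ a') (hb' : 0 ≤ b') :
    (a : ℂ) * vert θ r i + b * vert θ r (i + 1) ≠ a' * vert θ r j + b' * vert θ r (j + 1) := by
  intro h
  obtain ⟨φ, ρ, h1, h2, h3, h4, h5, h6⟩ := F.angle hi ha.le hb.le (by positivity)
  have h5' := h5 ha
  have h6' := h6 hb
  have hpos : 0 < a' + b' := by
    rcases (add_nonneg ha' hb').lt_or_eq with h7 | h7
    · exact h7
    · exfalso
      have ha0 : a' = 0 := by linarith
      have hb0 : b' = 0 := by linarith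
      rw [ha0, hb0, h4] at h
      simp only [Complex.ofReal_zero, zero_mul, add_zero] at h
      rcases mul_eq_zero.mp h with h8 | h8
      · exact h3.ne' (by exact_mod_cast h8)
      · exact dir_ne _ h8
  obtain ⟨φ', ρ', g1, g2, g3, g4, g5, g6⟩ := F.angle hj ha' hb' hpos
  rw [h4, g4] at h
  have hρ : ρ = ρ' := by
    have := congrArg norm h
    rw [norm_mul, norm_mul, norm_dir, norm_dir, Complex.norm_real, Complex.norm_real,
      Real.norm_of_nonneg h3.le, Real.norm_of_nonneg g3.le] at this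
    linarith
  rw [hρ] at h
  have h7 : dir φ = dir φ' := by
    refine mul_left_cancel₀ ?_ h
    exact_mod_cast g3.ne'
  obtain ⟨m, hm⟩ := dir_eq_iff.mp h7
  have b1 : θ 0 ≤ θ i := F.mono (Nat.zero_le _) hi.le
  have b2 : θ (i + 1) ≤ θ N := F.mono (by omega) le_rfl
  have b3 : θ 0 ≤ θ j := F.mono (Nat.zero_le _) hj.le
  have b4 : θ (j + 1) ≤ θ N := F.mono (by omega) le_rfl
  have b5 := F.turn
  have hpi := Real.pi_pos
  have hm0 : m = 0 := by
    by_contra hc
    rcases lt_or_gt_of_ne hc with h8 | h8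
    · have : (m : ℝ) ≤ -1 := by exact_mod_cast (by omega : m ≤ -1)
      nlinarith
    · have : (1 : ℝ) ≤ m := by exact_mod_cast (by omega : 1 ≤ m)
      nlinarith
  rw [hm0] at hm
  push_cast at hm
  rw [zero_mul, add_zero] at hm
  rcases lt_or_gt_of_ne hij with h8 | h8
  · have : θ (i + 1) ≤ θ j := F.mono (by omega) hj.le
    linarith
  · have : θ (j + 1) ≤ θ i := F.mono (by omega) hi.le
    linarith

end Q47.Setup
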