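import Pool.Agent.Q47.Setup.Star

/-!
The lines which bound a shifted setup, and the vertices of the boundary of its union.
-/

set_option autoImplicit false

namespace Q47.Setup

open Complex Filter Topology

/-- The point with coordinates `h`, `y` in the frame rotated by `t`. -/
noncomputable def pnt (t h y : ℝ) : ℂ := (⟨h, y⟩ : ℂ) * dir t

/-- The coordinate in the direction `t`. -/
noncomputable def LL (t : ℝ) (x : ℂ) : ℝ := Real.cos t * x.re + Real.sin t * x.im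

theorem pnt_re (t h y : ℝ) : (pnt t h y).re = h * Real.cos t - y * Real.sin t := by
  simp [pnt, dir_re, dir_im]

theorem pnt_im (t h y : ℝ) : (pnt t h y).im = h * Real.sin t + y * Real.cos t := by
  simp [pnt, dir_re, dir_im]

theorem LL_pnt (t h y Δ : ℝ) : LL (t + Δ) (pnt t h y) = h * Real.cos Δ + y * Real.sin Δ := by
  rw [LL, pnt_re, pnt_im, Real.cos_add, Real.sin_add]
  have := Real.sin_sq_add_cos_sq t
  linear_combination (h * Real.cos Δ + y * Real.sin Δ) * this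

theorem LL_pnt_self (t h y : ℝ) : LL t (pnt t h y) = h := by
  have := LL_pnt t h y 0
  simpa using this

theorem LL_add (t : ℝ) (a b : ℝ) (x y : ℂ) : LL t (a * x + b * y) = a * LL t x + b * LL t y := by
  simp only [LL, Complex.add_re, Complex.add_im, Complex.mul_re, Complex.mul_im,
    Complex.ofReal_re, Complex.ofReal_im, zero_mul, sub_zero, add_zero]
  ring

theorem LL_dir (s t r : ℝ) : LL s (r * dir t) = r * Real.cos (t - s) := by
  rw [LL, Complex.mul_re, Complex.mul_im, dir_re, dir_im, Real.cos_sub]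
  simp only [Complex.ofReal_re, Complex.ofReal_im, zero_mul, sub_zero, add_zero]
  ring

theorem det_pnt (t h y y' : ℝ) : det (pnt t h y) (pnt t h y') = h * (y' - y) := by
  rw [det, pnt_re, pnt_im, pnt_re, pnt_im]
  have := Real.sin_sq_add_cos_sq t
  linear_combination (h * (y' - y)) * this

theorem norm_pnt_sub (t h y y' : ℝ) : ‖pnt t h y' - pnt t h y‖ = |y' - y| := by
  have : pnt t h y' - pnt t h y = ((y' - y : ℝ) : ℂ) * (Complex.I * dir t) := by
    rw [pnt, pnt, ← sub_mul, ← mul_assoc]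
    congr 1
    apply Complex.ext <;> simp
  rw [this, norm_mul, norm_mul, norm_dir, Complex.norm_I, Complex.norm_real]
  simp

theorem pnt_shift (t h h' Δ : ℝ) (hs : Real.sin Δ ≠ 0) :
    pnt t h ((h' - h * Real.cos Δ) / Real.sin Δ) =
      pnt (t + Δ) h' ((h' * Real.cos Δ - h) / Real.sin Δ) := by
  have := Real.sin_sq_add_cos_sq Δ
  apply Complex.ext
  · rw [pnt_re, pnt_re, Real.cos_add, Real.sin_add]
    field_simp
    linear_combination (h' * Real.sin t) * this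
  · rw [pnt_im, pnt_im, Real.cos_add, Real.sin_add]
    field_simp
    linear_combination (-(h' * Real.cos t)) * this

theorem pnt_mid (t h Δ : ℝ) (h0 : 0 < Δ) (h1 : Δ < Real.pi) :
    pnt t h ((h - h * Real.cos Δ) / Real.sin Δ) =
      ((h / Real.cos (Δ / 2) : ℝ) : ℂ) * dir (t + Δ / 2) := by
  have hs : 0 < Real.sin (Δ / 2) := Real.sin_pos_of_pos_of_lt_pi (by linarith) (by linarith)
  have hc : 0 < Real.cos (Δ / 2) := Real.cos_pos_of_mem_Ioo ⟨by linarith, by linarith⟩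
  have e1 : Real.sin Δ = 2 * Real.sin (Δ / 2) * Real.cos (Δ / 2) := by
    rw [← Real.sin_two_mul]; ring_nf
  have e2 : Real.cos Δ = 1 - 2 * Real.sin (Δ / 2) ^ 2 := by
    have := Real.cos_two_mul (Δ / 2)
    have h3 := Real.sin_sq_add_cos_sq (Δ / 2)
    have h4 : 2 * (Δ / 2) = Δ := by ring
    rw [h4] at this
    rw [this]; linarith
  have e3 : (h - h * Real.cos Δ) / Real.sin Δ = h * Real.sin (Δ / 2) / Real.cos (Δ / 2) := by
    rw [e1, e2]
    field_simp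
    ring
  rw [e3, dir_add, pnt]
  have : (⟨h, h * Real.sin (Δ / 2) / Real.cos (Δ / 2)⟩ : ℂ) =
      ((h / Real.cos (Δ / 2) : ℝ) : ℂ) * dir (Δ / 2) := by
    apply Complex.ext
    · rw [Complex.mul_re, dir_re, Complex.ofReal_re, Complex.ofReal_im]
      field_simp
      ring
    · rw [Complex.mul_im, dir_im, Complex.ofReal_re, Complex.ofReal_im]
      field_simp
      ring
  rw [this]
  ring

theorem cos_lt_of {a b : ℝ} (hb : 0 ≤ b) (h1 : b < a) (h2 : a < 2 * Real.pi - b) :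
    Real.cos a < Real.cos b := by
  rcases le_or_gt a Real.pi with h | h
  · exact Real.cos_lt_cos_of_nonneg_of_le_pi hb h h1
  · have : Real.cos a = Real.cos (2 * Real.pi - a) := by rw [Real.cos_two_pi_sub]
    rw [this]
    exact Real.cos_lt_cos_of_nonneg_of_le_pi hb (by linarith) (by linarith)

theorem lt_cos_of {a b : ℝ} (h1 : |a| < b) (h2 : b ≤ Real.pi) : Real.cos b < Real.cos a := by
  rw [← Real.cos_abs a]
  exact Real.cos_lt_cos_of_nonneg_of_le_pi (abs_nonneg _) h2 h1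

section

variable (n k : ℕ) (κ : ℤ) (β ρ η : ℝ)

/-- The angle between two neighbouring lines of a polygon. -/
noncomputable def D0 : ℝ := 2 * Real.pi / n

/-- The angle of the concave corners. -/
noncomputable def D1 : ℝ := 2 * ((k : ℝ) - 1) * Real.pi / (k * n)

/-- The directions of the normals of the lines. -/
noncomputable def ph (τ : ℤ) : ℝ := β + (2 * τ + k) * Real.pi / (k * n)

/-- The distances of the lines from the origin. -/
noncomputable def hh (τ : ℤ) : ℝ := ρ + η * Real.cos ((2 * κ * τ + 1) * Real.pi / n)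

/-- The convex corners. -/
noncomputable def Bp (σ : ℤ) : ℂ :=
  pnt (ph n k β σ) (hh n κ ρ η σ)
    ((hh n κ ρ η (σ + k) - hh n κ ρ η σ * Real.cos (D0 n)) / Real.sin (D0 n))

/-- The concave corners. -/
noncomputable def Cp (σ : ℤ) : ℂ :=
  pnt (ph n k β σ) (hh n κ ρ η σ)
    ((hh n κ ρ η (σ + k - 1) - hh n κ ρ η σ * Real.cos (D1 n k)) / Real.sin (D1 n k))

/-- The union of the polygons. -/
def UU : Set ℂ :=
  {x | ∃ m : ℤ, ∀ j : ℤ, LL (ph n k β (m + j * k)) x ≤ hh n κ ρ η (m + j * k)}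

/-- All corners. -/
noncomputable def VV (i : ℕ) : ℂ :=
  if i % 2 = 0 then Cp n k κ β ρ η (i / 2 : ℕ) else Bp n k κ β ρ η (i / 2 : ℕ)

end

variable {n k : ℕ} {κ : ℤ} {β ρ η : ℝ}

theorem ph_add (hn : 3 ≤ n) (hk : 2 ≤ k) (τ m : ℤ) :
    ph n k β (τ + m) = ph n k β τ + 2 * m * Real.pi / (k * n) := by
  have : (k : ℝ) * n ≠ 0 := by positivity
  rw [ph, ph]
  push_cast
  field_simp
  ring

theorem ph_k (hn : 3 ≤ n) (hk : 2 ≤ k) (τ : ℤ) :
    ph n k β (τ + k) = ph n k β τ + D0 n := by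
  rw [ph_add hn hk, D0]
  have : (k : ℝ) ≠ 0 := by positivity
  have : (n : ℝ) ≠ 0 := by positivity
  push_cast
  field_simp

theorem ph_k1 (hn : 3 ≤ n) (hk : 2 ≤ k) (τ : ℤ) :
    ph n k β (τ + k - 1) = ph n k β τ + D1 n k := by
  have : τ + k - 1 = τ + ((k : ℤ) - 1) := by ring
  rw [this, ph_add hn hk, D1]
  push_cast
  ring

theorem D0_pos (hn : 3 ≤ n) : 0 < D0 n := by
  have := Real.pi_pos
  rw [D0]; positivity

theorem D0_lt (hn : 3 ≤ n) : D0 n < Real.pi := by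
  have h := Real.pi_pos
  have hn' : (3 : ℝ) ≤ n := by exact_mod_cast hn
  rw [D0, div_lt_iff₀ (by positivity)]
  nlinarith

theorem D1_pos (hn : 3 ≤ n) (hk : 2 ≤ k) : 0 < D1 n k := by
  have := Real.pi_pos
  have hk' : (2 : ℝ) ≤ k := by exact_mod_cast hk
  have : 0 < (k : ℝ) - 1 := by linarith
  rw [D1]; positivity

theorem D1_lt_D0 (hn : 3 ≤ n) (hk : 2 ≤ k) : D1 n k < D0 n := by
  have h := Real.pi_pos
  have hn' : (0 : ℝ) < n := by positivity
  have hk' : (0 : ℝ) < k := by positivity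
  rw [D1, D0, div_lt_div_iff₀ (by positivity) (by positivity)]
  have : 0 < (n : ℝ) * Real.pi := by positivity
  nlinarith

theorem D1_lt (hn : 3 ≤ n) (hk : 2 ≤ k) : D1 n k < Real.pi := (D1_lt_D0 hn hk).trans (D0_lt hn)

theorem sin_D0 (hn : 3 ≤ n) : 0 < Real.sin (D0 n) :=
  Real.sin_pos_of_pos_of_lt_pi (D0_pos hn) (D0_lt hn)

theorem sin_D1 (hn : 3 ≤ n) (hk : 2 ≤ k) : 0 < Real.sin (D1 n k) :=
  Real.sin_pos_of_pos_of_lt_pi (D1_pos hn hk) (D1_lt hn hk)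

theorem hh_period (hn : 3 ≤ n) (τ c : ℤ) : hh n κ ρ η (τ + n * c) = hh n κ ρ η τ := by
  have hn' : (n : ℝ) ≠ 0 := by positivity
  rw [hh, hh]
  have : (2 * (κ : ℝ) * ((τ + n * c : ℤ) : ℝ) + 1) * Real.pi / n =
      (2 * κ * τ + 1) * Real.pi / n + ((κ * c : ℤ) : ℝ) * (2 * Real.pi) := by
    push_cast
    field_simp
    ring
  rw [this, Real.cos_add_int_mul_two_pi]

theorem LL_period (hn : 3 ≤ n) (hk : 2 ≤ k) (τ c : ℤ) (x : ℂ) :
    LL (ph n k β (τ + k * n * c)) x = LL (ph n k β τ) x := by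
  have : ph n k β (τ + k * n * c) = ph n k β τ + c * (2 * Real.pi) := by
    rw [ph_add hn hk]
    have h1 : (k : ℝ) ≠ 0 := by positivity
    have h2 : (n : ℝ) ≠ 0 := by positivity
    push_cast
    field_simp
  rw [LL, LL, this, Real.cos_add_int_mul_two_pi, Real.sin_add_int_mul_two_pi]

theorem hh_zero (τ : ℤ) : hh n κ ρ 0 τ = ρ := by simp [hh]

theorem Bp_eq' (hn : 3 ≤ n) (hk : 2 ≤ k) (σ : ℤ) : Bp n k κ β ρ η σ =
    pnt (ph n k β (σ + k)) (hh n κ ρ η (σ + k))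
      ((hh n κ ρ η (σ + k) * Real.cos (D0 n) - hh n κ ρ η σ) / Real.sin (D0 n)) := by
  rw [Bp, pnt_shift _ _ _ _ (sin_D0 hn).ne', ph_k hn hk]

theorem Cp_eq' (hn : 3 ≤ n) (hk : 2 ≤ k) (σ : ℤ) : Cp n k κ β ρ η σ =
    pnt (ph n k β (σ + k - 1)) (hh n κ ρ η (σ + k - 1))
      ((hh n κ ρ η (σ + k - 1) * Real.cos (D1 n k) - hh n κ ρ η σ) / Real.sin (D1 n k)) := by
  rw [Cp, pnt_shift _ _ _ _ (sin_D1 hn hk).ne', ph_k1 hn hk]

theorem LL_Bp_self (σ : ℤ) : LL (ph n k β σ) (Bp n k κ β ρ η σ) = hh n κ ρ η σ :=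
  LL_pnt_self _ _ _

theorem LL_Bp_k (hn : 3 ≤ n) (hk : 2 ≤ k) (σ : ℤ) :
    LL (ph n k β (σ + k)) (Bp n k κ β ρ η σ) = hh n κ ρ η (σ + k) := by
  rw [Bp_eq' hn hk]; exact LL_pnt_self _ _ _

theorem LL_Cp_self (σ : ℤ) : LL (ph n k β σ) (Cp n k κ β ρ η σ) = hh n κ ρ η σ :=
  LL_pnt_self _ _ _

theorem LL_Cp_k (hn : 3 ≤ n) (hk : 2 ≤ k) (σ : ℤ) :
    LL (ph n k β (σ + k - 1)) (Cp n k κ β ρ η σ) = hh n κ ρ η (σ + k - 1) := by
  rw [Cp_eq' hn hk]; exact LL_pnt_self _ _ _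

theorem Bp_zero (hn : 3 ≤ n) (σ : ℤ) : Bp n k κ β ρ 0 σ =
    ((ρ / Real.cos (D0 n / 2) : ℝ) : ℂ) * dir (ph n k β σ + D0 n / 2) := by
  rw [Bp, hh_zero, hh_zero, pnt_mid _ _ _ (D0_pos hn) (D0_lt hn)]

theorem Cp_zero (hn : 3 ≤ n) (hk : 2 ≤ k) (σ : ℤ) : Cp n k κ β ρ 0 σ =
    ((ρ / Real.cos (D1 n k / 2) : ℝ) : ℂ) * dir (ph n k β σ + D1 n k / 2) := by
  rw [Cp, hh_zero, hh_zero, pnt_mid _ _ _ (D1_pos hn hk) (D1_lt hn hk)]

theorem continuous_hh (τ : ℤ) : Continuous fun η => hh n κ ρ η τ := by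
  unfold hh; fun_prop

theorem continuous_pnt {t : ℝ} {f g : ℝ → ℝ} (hf : Continuous f) (hg : Continuous g) :
    Continuous fun η => pnt t (f η) (g η) := by
  have : (fun η => pnt t (f η) (g η)) = fun η => ((f η : ℂ) + (g η : ℂ) * I) * dir t := by
    funext η
    rw [pnt]
    congr 1
    apply Complex.ext <;> simp
  rw [this]
  fun_prop

theorem continuous_Bp (σ : ℤ) : Continuous fun η => Bp n k κ β ρ η σ := by
  unfold Bp
  exact continuous_pnt (continuous_hh _)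
    (((continuous_hh _).sub ((continuous_hh _).mul continuous_const)).div_const _)

theorem continuous_Cp (σ : ℤ) : Continuous fun η => Cp n k κ β ρ η σ := by
  unfold Cp
  exact continuous_pnt (continuous_hh _)
    (((continuous_hh _).sub ((continuous_hh _).mul continuous_const)).div_const _)

theorem continuous_LL (t : ℝ) : Continuous (LL t) := by
  unfold LL; fun_prop

theorem eventually_lt {f g : ℝ → ℝ} (hf : Continuous f) (hg : Continuous g) (h : f 0 < g 0) :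
    ∀ᶠ η in 𝓝 (0 : ℝ), f η < g η :=
  (hf.tendsto 0).eventually_lt (hg.tendsto 0) h

theorem LL_Bp_zero (hn : 3 ≤ n) (hk : 2 ≤ k) (σ q : ℤ) :
    LL (ph n k β (σ + q)) (Bp n k κ β ρ 0 σ) =
      ρ / Real.cos (D0 n / 2) * Real.cos (((k : ℝ) - 2 * q) * Real.pi / (k * n)) := by
  rw [Bp_zero hn, LL_dir, ph_add hn hk]
  congr 2
  have h1 : (k : ℝ) ≠ 0 := by positivity
  have h2 : (n : ℝ) ≠ 0 := by positivity
  rw [D0]
  field_simp
  ring

theorem LL_Cp_zero (hn : 3 ≤ n) (hk : 2 ≤ k) (σ q : ℤ) :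
    LL (ph n k β (σ + q)) (Cp n k κ β ρ 0 σ) =
      ρ / Real.cos (D1 n k / 2) * Real.cos (((k : ℝ) - 1 - 2 * q) * Real.pi / (k * n)) := by
  rw [Cp_zero hn hk, LL_dir, ph_add hn hk]
  congr 2
  have h1 : (k : ℝ) ≠ 0 := by positivity
  have h2 : (n : ℝ) ≠ 0 := by positivity
  rw [D1]
  field_simp
  ring

theorem D0_half (hk : 2 ≤ k) : D0 n / 2 = (k : ℝ) * Real.pi / (k * n) := by
  have h1 : (k : ℝ) ≠ 0 := by positivity
  rcases eq_or_ne (n : ℝ) 0 with h | h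
  · rw [D0, h]; simp
  · rw [D0]; field_simp

theorem D1_half : D1 n k / 2 = ((k : ℝ) - 1) * Real.pi / (k * n) := by
  rw [D1]; ring

theorem cos_D0_half (hn : 3 ≤ n) : 0 < Real.cos (D0 n / 2) :=
  Real.cos_pos_of_mem_Ioo ⟨by linarith [D0_pos hn, Real.pi_pos], by linarith [D0_lt hn]⟩

theorem cos_D1_half (hn : 3 ≤ n) (hk : 2 ≤ k) : 0 < Real.cos (D1 n k / 2) :=
  Real.cos_pos_of_mem_Ioo ⟨by linarith [D1_pos hn hk, Real.pi_pos], by linarith [D1_lt hn hk]⟩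

theorem Bp_lt (hρ : 0 < ρ) (hn : 3 ≤ n) (hk : 2 ≤ k) (σ q : ℤ)
    (h : Real.cos (((k : ℝ) - 2 * q) * Real.pi / (k * n)) < Real.cos (D0 n / 2)) :
    ∀ᶠ η in 𝓝 (0 : ℝ), LL (ph n k β (σ + q)) (Bp n k κ β ρ η σ) < hh n κ ρ η (σ + q) := by
  refine eventually_lt ((continuous_LL _).comp (continuous_Bp σ)) (continuous_hh _) ?_
  rw [LL_Bp_zero hn hk, hh_zero, div_mul_eq_mul_div, div_lt_iff₀ (cos_D0_half hn)]
  exact mul_lt_mul_of_pos_left h hρ

theorem Bp_gt (hρ : 0 < ρ) (hn : 3 ≤ n) (hk : 2 ≤ k) (σ q : ℤ)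
    (h : Real.cos (D0 n / 2) < Real.cos (((k : ℝ) - 2 * q) * Real.pi / (k * n))) :
    ∀ᶠ η in 𝓝 (0 : ℝ), hh n κ ρ η (σ + q) < LL (ph n k β (σ + q)) (Bp n k κ β ρ η σ) := by
  refine eventually_lt (continuous_hh _) ((continuous_LL _).comp (continuous_Bp σ)) ?_
  rw [LL_Bp_zero hn hk, hh_zero, div_mul_eq_mul_div, lt_div_iff₀ (cos_D0_half hn)]
  exact mul_lt_mul_of_pos_left h hρ

theorem Cp_lt (hρ : 0 < ρ) (hn : 3 ≤ n) (hk : 2 ≤ k) (σ q : ℤ)
    (h : Real.cos (((k : ℝ) - 1 - 2 * q) * Real.pi / (k * n)) < Real.cos (D1 n k / 2)) :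
    ∀ᶠ η in 𝓝 (0 : ℝ), LL (ph n k β (σ + q)) (Cp n k κ β ρ η σ) < hh n κ ρ η (σ + q) := by
  refine eventually_lt ((continuous_LL _).comp (continuous_Cp σ)) (continuous_hh _) ?_
  rw [LL_Cp_zero hn hk, hh_zero, div_mul_eq_mul_div, div_lt_iff₀ (cos_D1_half hn hk)]
  exact mul_lt_mul_of_pos_left h hρ

theorem Cp_gt (hρ : 0 < ρ) (hn : 3 ≤ n) (hk : 2 ≤ k) (σ q : ℤ)
    (h : Real.cos (D1 n k / 2) < Real.cos (((k : ℝ) - 1 - 2 * q) * Real.pi / (k * n))) :
    ∀ᶠ η in 𝓝 (0 : ℝ), hh n κ ρ η (σ + q) < LL (ph n k β (σ + q)) (Cp n k κ β ρ η σ) := by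
  refine eventually_lt (continuous_hh _) ((continuous_LL _).comp (continuous_Cp σ)) ?_
  rw [LL_Cp_zero hn hk, hh_zero, div_mul_eq_mul_div, lt_div_iff₀ (cos_D1_half hn hk)]
  exact mul_lt_mul_of_pos_left h hρ

/-- Comparison of cosines of multiples of `π / (k n)`. -/
theorem cosM_lt (hn : 3 ≤ n) (hk : 2 ≤ k) {x y : ℤ} (hy : 0 ≤ y) (h1 : y < x)
    (h2 : x + y < 2 * (k * n)) : Real.cos (x * Real.pi / (k * n)) <
      Real.cos (y * Real.pi / (k * n)) := by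
  have hp := Real.pi_pos
  have hM : (0 : ℝ) < (k : ℝ) * n := by positivity
  have h1' : (y : ℝ) < x := by exact_mod_cast h1
  have h2' : (x : ℝ) + y < 2 * (k * n) := by exact_mod_cast h2
  have hy' : (0 : ℝ) ≤ y := by exact_mod_cast hy
  refine cos_lt_of (by positivity) ?_ ?_
  · rw [div_lt_div_iff_of_pos_right hM]
    exact mul_lt_mul_of_pos_right h1' hp
  · rw [lt_sub_iff_add_lt, ← add_div, div_lt_iff₀ hM]
    nlinarith

theorem cosM_gt (hn : 3 ≤ n) (hk : 2 ≤ k) {x y : ℤ} (h1 : |x| < y)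
    (h2 : y ≤ k * n) : Real.cos (y * Real.pi / (k * n)) <
      Real.cos (x * Real.pi / (k * n)) := by
  have hp := Real.pi_pos
  have hM : (0 : ℝ) < (k : ℝ) * n := by positivity
  have h1' : |(x : ℝ)| < y := by exact_mod_cast h1
  have h2' : (y : ℝ) ≤ k * n := by exact_mod_cast h2
  refine lt_cos_of ?_ ?_
  · rw [abs_div, abs_mul, abs_of_pos hp, abs_of_pos hM, div_lt_div_iff_of_pos_right hM]
    exact mul_lt_mul_of_pos_right h1' hp
  · rw [div_le_iff₀ hM]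
    nlinarith

theorem cosM_neg (n k : ℕ) (x : ℤ) : Real.cos ((-x : ℤ) * Real.pi / (k * n)) =
    Real.cos (x * Real.pi / (k * n)) := by
  have : ((-x : ℤ) : ℝ) * Real.pi / (k * n) = -((x : ℝ) * Real.pi / (k * n)) := by
    push_cast; ring
  rw [this, Real.cos_neg]

theorem B_inside (hρ : 0 < ρ) (hn : 3 ≤ n) (hk : 2 ≤ k) (σ : ℤ) (j : ℕ) (hj : j < n) :
    ∀ᶠ η in 𝓝 (0 : ℝ),
      LL (ph n k β (σ + j * k)) (Bp n k κ β ρ η σ) ≤ hh n κ ρ η (σ + j * k) := by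
  rcases Nat.eq_zero_or_pos j with rfl | h0
  · refine Eventually.of_forall fun η => ?_
    simp only [Nat.cast_zero, zero_mul, add_zero]
    exact (LL_Bp_self σ).le
  rcases Nat.lt_or_ge j 2 with h1 | h1
  · have : j = 1 := by omega
    subst this
    refine Eventually.of_forall fun η => ?_
    simp only [Nat.cast_one, one_mul]
    exact (LL_Bp_k hn hk σ).le
  · refine (Bp_lt hρ hn hk σ (j * k) ?_).mono fun η h => h.le
    have e : ((k : ℝ) - 2 * ((j * k : ℤ) : ℝ)) = ((-(2 * j * k - k) : ℤ) : ℝ) := by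
      push_cast; ring
    rw [e, cosM_neg, D0_half hk]
    have h2 : ((k : ℤ) : ℝ) = (k : ℝ) := by push_cast; rfl
    rw [← h2]
    refine cosM_lt hn hk (by positivity) ?_ ?_
    · have : (2 : ℤ) ≤ j := by exact_mod_cast h1
      have : (2 : ℤ) ≤ k := by exact_mod_cast hk
      nlinarith
    · have : (j : ℤ) + 1 ≤ n := by exact_mod_cast hj
      have : (2 : ℤ) ≤ k := by exact_mod_cast hk
      nlinarith

theorem C_inside (hρ : 0 < ρ) (hn : 3 ≤ n) (hk : 2 ≤ k) (σ : ℤ) (j : ℕ) (hj : j < n) :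
    ∀ᶠ η in 𝓝 (0 : ℝ),
      LL (ph n k β (σ + j * k)) (Cp n k κ β ρ η σ) ≤ hh n κ ρ η (σ + j * k) := by
  rcases Nat.eq_zero_or_pos j with rfl | h0
  · refine Eventually.of_forall fun η => ?_
    simp only [Nat.cast_zero, zero_mul, add_zero]
    exact (LL_Cp_self σ).le
  · refine (Cp_lt hρ hn hk σ (j * k) ?_).mono fun η h => h.le
    have e : ((k : ℝ) - 1 - 2 * ((j * k : ℤ) : ℝ)) = ((-(2 * j * k - k + 1) : ℤ) : ℝ) := by
      push_cast; ring
    rw [e, cosM_neg, D1_half]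
    have h2 : (k : ℝ) - 1 = (((k : ℤ) - 1 : ℤ) : ℝ) := by push_cast; rfl
    rw [h2]
    have h3 : (1 : ℤ) ≤ j := by exact_mod_cast h0
    have h4 : (2 : ℤ) ≤ k := by exact_mod_cast hk
    have h5 : (j : ℤ) + 1 ≤ n := by exact_mod_cast hj
    refine cosM_lt hn hk (by linarith) ?_ ?_
    · nlinarith
    · nlinarith

theorem C_inside' (hρ : 0 < ρ) (hn : 3 ≤ n) (hk : 2 ≤ k) (σ : ℤ) (j : ℕ) (hj : j < n) :
    ∀ᶠ η in 𝓝 (0 : ℝ),
      LL (ph n k β (σ + (j * k - 1))) (Cp n k κ β ρ η σ) ≤ hh n κ ρ η (σ + (j * k - 1)) := by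
  have h4 : (2 : ℤ) ≤ k := by exact_mod_cast hk
  have h5 : (j : ℤ) + 1 ≤ n := by exact_mod_cast hj
  have hn' : (3 : ℤ) ≤ n := by exact_mod_cast hn
  by_cases h1 : j = 1
  · subst h1
    refine Eventually.of_forall fun η => ?_
    have : σ + (((1 : ℕ) : ℤ) * k - 1) = σ + k - 1 := by push_cast; ring
    rw [this]
    exact (LL_Cp_k hn hk σ).le
  · refine (Cp_lt hρ hn hk σ (j * k - 1) ?_).mono fun η h => h.le
    have h2 : (k : ℝ) - 1 = (((k : ℤ) - 1 : ℤ) : ℝ) := by push_cast; rfl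
    rw [D1_half, h2]
    rcases Nat.lt_or_ge j 1 with h0 | h0
    · have : j = 0 := by omega
      subst this
      have e : ((((k : ℤ) - 1 : ℤ) : ℝ) - 2 * ((((0 : ℕ) : ℤ) * k - 1 : ℤ) : ℝ)) =
          (((k : ℤ) + 1 : ℤ) : ℝ) := by
        push_cast; ring
      rw [e]
      refine cosM_lt hn hk (by linarith) (by linarith) ?_
      nlinarith
    · have e : ((((k : ℤ) - 1 : ℤ) : ℝ) - 2 * (((j : ℤ) * k - 1 : ℤ) : ℝ)) =
          ((-(2 * j * k - k - 1) : ℤ) : ℝ) := by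
        push_cast; ring
      rw [e, cosM_neg]
      have h3 : (2 : ℤ) ≤ j := by
        have : 2 ≤ j := by omega
        exact_mod_cast this
      refine cosM_lt hn hk (by linarith) ?_ ?_
      · nlinarith
      · nlinarith

theorem C_outside (hρ : 0 < ρ) (hn : 3 ≤ n) (hk : 2 ≤ k) (σ : ℤ) (q : ℕ) (hq : q < k) :
    ∀ᶠ η in 𝓝 (0 : ℝ),
      hh n κ ρ η (σ + q) ≤ LL (ph n k β (σ + q)) (Cp n k κ β ρ η σ) := by
  rcases Nat.eq_zero_or_pos q with rfl | h0
  · refine Eventually.of_forall fun η => ?_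
    simp only [Nat.cast_zero, add_zero]
    exact (LL_Cp_self σ).ge
  by_cases h1 : q = k - 1
  · refine Eventually.of_forall fun η => ?_
    have : σ + (q : ℤ) = σ + k - 1 := by
      have : (q : ℤ) = k - 1 := by rw [h1]; push_cast [Nat.cast_sub (by omega : 1 ≤ k)]; ring
      rw [this]; ring
    rw [this]
    exact (LL_Cp_k hn hk σ).ge
  · refine (Cp_gt hρ hn hk σ q ?_).mono fun η h => h.le
    have h2 : (k : ℝ) - 1 = (((k : ℤ) - 1 : ℤ) : ℝ) := by push_cast; rfl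
    have e : (((k : ℤ) - 1 : ℤ) : ℝ) - 2 * ((q : ℤ) : ℝ) = (((k : ℤ) - 1 - 2 * q : ℤ) : ℝ) := by
      push_cast; ring
    rw [D1_half, h2, e]
    refine cosM_gt hn hk ?_ ?_
    · rw [abs_lt]
      constructor <;> omega
    · have : (k : ℤ) * 3 ≤ k * n := by
        have : (3 : ℤ) ≤ n := by exact_mod_cast hn
        nlinarith
      omega

theorem B_outside (hρ : 0 < ρ) (hn : 3 ≤ n) (hk : 2 ≤ k) (σ : ℤ) (q : ℕ) (hq : q ≤ k) :
    ∀ᶠ η in 𝓝 (0 : ℝ),
      hh n κ ρ η (σ + q) ≤ LL (ph n k β (σ + q)) (Bp n k κ β ρ η σ) := by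
  rcases Nat.eq_zero_or_pos q with rfl | h0
  · refine Eventually.of_forall fun η => ?_
    simp only [Nat.cast_zero, add_zero]
    exact (LL_Bp_self σ).ge
  by_cases h1 : q = k
  · subst h1
    exact Eventually.of_forall fun η => (LL_Bp_k hn hk σ).ge
  · refine (Bp_gt hρ hn hk σ q ?_).mono fun η h => h.le
    have h2 : (k : ℝ) = ((k : ℤ) : ℝ) := by push_cast; rfl
    have e : ((k : ℤ) : ℝ) - 2 * ((q : ℤ) : ℝ) = (((k : ℤ) - 2 * q : ℤ) : ℝ) := by
      push_cast; ring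
    rw [D0_half hk]
    have h3 : (k : ℝ) * Real.pi / (k * n) = ((k : ℤ) : ℝ) * Real.pi / (k * n) := by
      push_cast; rfl
    rw [h3]
    have h4 : ((k : ℝ) - 2 * ((q : ℤ) : ℝ)) = (((k : ℤ) - 2 * q : ℤ) : ℝ) := by
      push_cast; ring
    rw [h4]
    refine cosM_gt hn hk ?_ ?_
    · rw [abs_lt]
      constructor <;> omega
    · have : (k : ℤ) * 3 ≤ k * n := by
        have : (3 : ℤ) ≤ n := by exact_mod_cast hn
        nlinarith
      omega

end Q47.Setup
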