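import Pool.Agent.Q47.Setup.Ratio

/-!
Shifted setups of regular polygons.
-/

set_option autoImplicit false

namespace Q47.Setup

open Complex Filter Topology MeasureTheory
open scoped MeasureTheory

/-- `a i` is the direction of the marked vertex `A i` of the polygon `P i` of a basic
`(k, n)`-setup: all `k n` vertices together form a regular `k n`-gon centred at the origin. -/
def BasicSetup (k n : ℕ) (a : Fin k → ℝ) : Prop :=
  ∃ α : ℝ, {z : ℂ | ∃ (i : Fin k) (j : Fin n), z = circ n * dir (a i + 2 * Real.pi * j / n)} =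
    {z : ℂ | ∃ m : Fin (k * n), z = circ n * dir (α + 2 * Real.pi * m / (k * n))}

/-- The marked vertices form a regular `k`-gon centred at the origin. -/
def Marked (k n : ℕ) (a : Fin k → ℝ) : Prop :=
  ∃ β : ℝ, {z : ℂ | ∃ i : Fin k, z = circ n * dir (a i)} =
    {z : ℂ | ∃ s : Fin k, z = circ n * dir (β + 2 * Real.pi * s / k)}

/-- The union of the polygons `P i + ε (O A i)`. -/
def shifted (k n : ℕ) (a : Fin k → ℝ) (ε : ℝ) : Set ℂ :=
  ⋃ i : Fin k, ngon n (ε * (circ n * dir (a i))) (a i)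

variable {n k : ℕ}

theorem ngon_congr (c : ℂ) {s t : ℝ} (h : dir s = dir t) : ngon n c s = ngon n c t := by
  unfold ngon
  congr 1
  ext z
  simp only [Set.mem_range]
  constructor <;> rintro ⟨j, rfl⟩ <;> refine ⟨j, ?_⟩ <;> rw [dir_add, dir_add, h]

theorem marked_union (hn : 3 ≤ n) {a : Fin k → ℝ} (h : Marked k n a) : ∃ β : ℝ, ∀ ε : ℝ,
    shifted k n a ε = ⋃ s : Fin k, ngon n (((ε * circ n : ℝ) : ℂ) *
      dir (β + 2 * Real.pi * s / k)) (β + 2 * Real.pi * s / k) := by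
  obtain ⟨β, hβ⟩ := h
  have hc : (circ n : ℂ) ≠ 0 := by exact_mod_cast (circ_pos hn).ne'
  refine ⟨β, fun ε => ?_⟩
  have h1 : ∀ i : Fin k, ∃ s : Fin k, dir (a i) = dir (β + 2 * Real.pi * s / k) := by
    intro i
    have : circ n * dir (a i) ∈ {z : ℂ | ∃ s : Fin k, z = circ n *
        dir (β + 2 * Real.pi * s / k)} := by
      rw [← hβ]; exact ⟨i, rfl⟩
    obtain ⟨s, hs⟩ := this
    exact ⟨s, mul_left_cancel₀ hc hs⟩
  have h2 : ∀ s : Fin k, ∃ i : Fin k, dir (a i) = dir (β + 2 * Real.pi * s / k) := by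
    intro s
    have : circ n * dir (β + 2 * Real.pi * s / k) ∈ {z : ℂ | ∃ i : Fin k, z = circ n *
        dir (a i)} := by
      rw [hβ]; exact ⟨s, rfl⟩
    obtain ⟨i, hi⟩ := this
    exact ⟨i, (mul_left_cancel₀ hc hi).symm⟩
  ext x
  simp only [shifted, Set.mem_iUnion]
  constructor
  · rintro ⟨i, hi⟩
    obtain ⟨s, hs⟩ := h1 i
    refine ⟨s, ?_⟩
    rw [hs, ngon_congr _ hs] at hi
    convert hi using 2
    push_cast
    ring
  · rintro ⟨s, hs⟩
    obtain ⟨i, hi⟩ := h2 s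
    refine ⟨i, ?_⟩
    rw [hi, ngon_congr _ hi]
    convert hs using 2
    push_cast
    ring

theorem exists_inverse (hco : Nat.Coprime k n) : ∃ κ : ℤ, (n : ℤ) ∣ κ * k - 1 := by
  have h := Nat.isCoprime_iff_coprime.mpr hco
  obtain ⟨a, b, hab⟩ := h
  exact ⟨a, -b, by linear_combination hab⟩

theorem inverse_iff {κ : ℤ} (h : (n : ℤ) ∣ κ * k - 1) :
    (n : ℤ) ∣ κ - 1 ↔ k ≡ 1 [MOD n] := by
  have h1 : (n : ℤ) ∣ κ - 1 ↔ (n : ℤ) ∣ (k : ℤ) - 1 := by
    constructor
    · intro h2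
      have : (k : ℤ) - 1 = (κ * k - 1) - (κ - 1) * k := by ring
      rw [this]
      exact dvd_sub h (h2.mul_right _)
    · intro h2
      have : κ - 1 = (κ * k - 1) - κ * (k - 1) := by ring
      rw [this]
      exact dvd_sub h (h2.mul_left _)
  rw [h1, Nat.ModEq.comm, Nat.modEq_iff_dvd]
  push_cast
  rfl

theorem pointwise (hk : 1 ≤ k) (hn : 3 ≤ n) (hco : Nat.Coprime k n) {a : Fin k → ℝ}
    (ha : Marked k n a) : ∃ ε₀ > 0, ∀ ε : ℝ, 0 < ε → ε < ε₀ →
      (4 * Real.tan (Real.pi / n) < perim (shifted k n a ε) / areaOf (shifted k n a ε) ↔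
        1 < k ∧ k ≡ 1 [MOD n]) := by
  obtain ⟨β, hβ⟩ := marked_union hn ha
  rcases Nat.lt_or_ge 1 k with hk2 | hk1
  · obtain ⟨κ, hκ⟩ := exists_inverse hco
    have h1 := ratio_iff (κ := κ) (β := β) hn hk2 hκ
    obtain ⟨δ, hδ, h2⟩ := Metric.eventually_nhds_iff.mp h1
    have hc := circ_pos hn
    refine ⟨δ / circ n, by positivity, fun ε h0 hε => ?_⟩
    have h3 : ε * circ n < δ := (lt_div_iff₀ hc).mp hε
    have h4 := h2 (y := ε * circ n) (by
      rw [dist_zero_right, Real.norm_of_nonneg (by positivity)]; exact h3) (by positivity)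
    rw [hβ, union_eq hn hk hκ, h4, inverse_iff hκ]
    simp [hk2]
  · have hk' : k = 1 := by omega
    subst hk'
    refine ⟨1, one_pos, fun ε _ _ => ?_⟩
    rw [hβ]
    have e : (⋃ s : Fin 1, ngon n (((ε * circ n : ℝ) : ℂ) *
        dir (β + 2 * Real.pi * s / (1 : ℕ))) (β + 2 * Real.pi * s / (1 : ℕ))) =
        ngon n (((ε * circ n : ℝ) : ℂ) * dir (β + 2 * Real.pi * ((0 : Fin 1) : ℕ) / (1 : ℕ)))
          (β + 2 * Real.pi * ((0 : Fin 1) : ℕ) / (1 : ℕ)) := by
      ext x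
      simp only [Set.mem_iUnion]
      constructor
      · rintro ⟨s, hs⟩
        have : s = 0 := Subsingleton.elim _ _
        rw [this] at hs
        exact hs
      · intro h
        exact ⟨0, h⟩
    rw [e, ngon_ratio hn]
    simp

/-- The shift does not change the perimeter, and it decreases the area if `k ≡ 1` modulo `n`. -/
theorem shift_facts (hk : 1 < k) (hn : 3 ≤ n) (hco : Nat.Coprime k n) (h1n : k ≡ 1 [MOD n])
    {a : Fin k → ℝ} (ha : Marked k n a) : ∃ ε₀ > 0, ∀ ε : ℝ, 0 < ε → ε < ε₀ →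
      perim (shifted k n a ε) = perim (shifted k n a 0) ∧
      areaOf (shifted k n a ε) < areaOf (shifted k n a 0) := by
  obtain ⟨β, hβ⟩ := marked_union hn ha
  obtain ⟨κ, hκ⟩ := exists_inverse hco
  have h1 := eventually_formulas (κ := κ) (β := β) (ap_pos hn) hn hk hκ
  obtain ⟨δ, hδ, h2⟩ := Metric.eventually_nhds_iff.mp h1
  have hc := circ_pos hn
  refine ⟨δ / circ n, by positivity, fun ε h0 hε => ?_⟩
  have h3 : ε * circ n < δ := (lt_div_iff₀ hc).mp hε
  obtain ⟨g1, g2, -⟩ := h2 (y := ε * circ n) (by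
    rw [dist_zero_right, Real.norm_of_nonneg (by positivity)]; exact h3)
  obtain ⟨g3, g4, -⟩ := h2 (y := 0) (by rw [dist_self]; exact hδ)
  have e : shifted k n a 0 = UU n k κ β (ap n) 0 := by
    rw [hβ, zero_mul, union_eq hn hk.le hκ]
  rw [e, hβ, union_eq hn hk.le hκ, g1, g2, g3, g4]
  refine ⟨rfl, ?_⟩
  have hY : 0 < YY n k κ := (YY_pos_iff hn hk).mpr ((inverse_iff hκ).mpr h1n)
  have h5 : 0 < (k : ℝ) * n * (ε * circ n) ^ 2 / 2 * YY n k κ := by positivity
  nlinarith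

theorem dir_period {x : ℝ} {N : ℕ} (hN : 0 < N) (β : ℝ) (p q : ℤ) (h1 : (N : ℤ) ∣ p - q)
    (hx : x = β + 2 * Real.pi * p / N) :
    dir x = dir (β + 2 * Real.pi * q / N) := by
  have hN' : (N : ℝ) ≠ 0 := by positivity
  rw [dir_eq_iff]
  obtain ⟨m, hm⟩ := h1
  refine ⟨m, ?_⟩
  have : (p : ℝ) - q = N * m := by exact_mod_cast hm
  rw [hx]
  field_simp
  linear_combination (2 * Real.pi) * this

theorem exists_setup (hk : 1 ≤ k) (hn : 3 ≤ n) (hco : Nat.Coprime k n) :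
    BasicSetup k n (fun s : Fin k => 2 * Real.pi * s / k) ∧
      Marked k n (fun s : Fin k => 2 * Real.pi * s / k) := by
  have hk' : (k : ℝ) ≠ 0 := by positivity
  have hn' : (n : ℝ) ≠ 0 := by positivity
  have hkn : 0 < k * n := by positivity
  refine ⟨⟨0, ?_⟩, 0, ?_⟩
  · ext z
    constructor
    · rintro ⟨s, j, rfl⟩
      have hkn0 : ((k * n : ℕ) : ℤ) ≠ 0 := by positivity
      have h1 : 0 ≤ ((s : ℤ) * n + j * k) % (k * n : ℕ) := Int.emod_nonneg _ hkn0
      have h2 : ((s : ℤ) * n + j * k) % (k * n : ℕ) < (k * n : ℕ) :=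
        Int.emod_lt_of_pos _ (by positivity)
      obtain ⟨m, hm⟩ := Int.eq_ofNat_of_zero_le h1
      refine ⟨⟨m, by omega⟩, ?_⟩
      congr 1
      have h3 := dir_period (x := 2 * Real.pi * (s : ℕ) / k + 2 * Real.pi * (j : ℕ) / n) hkn 0
        ((s : ℤ) * n + j * k) m ?_ ?_
      · rw [h3]
        push_cast
        rfl
      · rw [← hm]
        exact Int.dvd_self_sub_emod
      · push_cast
        field_simp
        ring
    · rintro ⟨m, rfl⟩
      obtain ⟨a, b, hab⟩ := Nat.isCoprime_iff_coprime.mpr hco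
      -- `m = (m b) n + (m a) k`
      have hk0 : (k : ℤ) ≠ 0 := by positivity
      have hn0 : (n : ℤ) ≠ 0 := by positivity
      have h1 : 0 ≤ ((m : ℤ) * b) % k := Int.emod_nonneg _ hk0
      have h2 : ((m : ℤ) * b) % k < k := Int.emod_lt_of_pos _ (by positivity)
      obtain ⟨s, hs⟩ := Int.eq_ofNat_of_zero_le h1
      have h3 : 0 ≤ ((m : ℤ) * a) % n := Int.emod_nonneg _ hn0
      have h4 : ((m : ℤ) * a) % n < n := Int.emod_lt_of_pos _ (by positivity)
      obtain ⟨j, hj⟩ := Int.eq_ofNat_of_zero_le h3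
      refine ⟨⟨s, by omega⟩, ⟨j, by omega⟩, ?_⟩
      congr 1
      have h5 := Int.emod_add_mul_ediv ((m : ℤ) * b) k
      have h6 := Int.emod_add_mul_ediv ((m : ℤ) * a) n
      rw [hs] at h5
      rw [hj] at h6
      have h7 := dir_period (x := 2 * Real.pi * (s : ℕ) / k + 2 * Real.pi * (j : ℕ) / n) hkn 0
        ((s : ℤ) * n + j * k) m ⟨-((m : ℤ) * b / k) - ((m : ℤ) * a / n), ?_⟩ ?_
      · simp only at h7 ⊢
        rw [h7]
        push_cast
        rfl
      · push_cast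
        linear_combination (n : ℤ) * h5 + (k : ℤ) * h6 + (m : ℤ) * hab
      · push_cast
        field_simp
        ring
  · ext z
    constructor
    · rintro ⟨s, rfl⟩
      exact ⟨s, by rw [zero_add]⟩
    · rintro ⟨s, rfl⟩
      exact ⟨s, by rw [zero_add]⟩

/-- For every admissible marking of a basic `(k, n)`-setup, the ratio of perimeter and area of the
shifted setups with small parameters exceeds the ratio `4 tan (π / n)` of a single polygon. -/
def RatioExceeds (k n : ℕ) : Prop :=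
  ∀ a : Fin k → ℝ, BasicSetup k n a → Marked k n a → ∃ ε₀ > 0, ∀ ε : ℝ, 0 < ε → ε < ε₀ →
    4 * Real.tan (Real.pi / n) < perim (shifted k n a ε) / areaOf (shifted k n a ε)

theorem main (hk : 1 ≤ k) (hn : 3 ≤ n) (hco : Nat.Coprime k n) :
    RatioExceeds k n ↔ 1 < k ∧ k ≡ 1 [MOD n] := by
  constructor
  · intro h
    obtain ⟨h1, h2⟩ := exists_setup hk hn hco
    obtain ⟨ε₀, h3, h4⟩ := h _ h1 h2
    obtain ⟨ε₁, h5, h6⟩ := pointwise hk hn hco h2
    have h7 : 0 < min ε₀ ε₁ / 2 := by positivity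
    have h8 : min ε₀ ε₁ / 2 < ε₀ := by have := min_le_left ε₀ ε₁; linarith
    have h9 : min ε₀ ε₁ / 2 < ε₁ := by have := min_le_right ε₀ ε₁; linarith
    exact (h6 _ h7 h9).mp (h4 _ h7 h8)
  · intro h a _ ha
    obtain ⟨ε₀, h1, h2⟩ := pointwise hk hn hco ha
    exact ⟨ε₀, h1, fun ε h3 h4 => (h2 ε h3 h4).mpr h⟩

end Q47.Setup
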