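import Pool.Agent.Q47.Setup.Sums

/-!
Regular polygons and the union of a shifted setup.
-/

set_option autoImplicit false

namespace Q47.Setup

open Complex Filter Topology MeasureTheory
open scoped MeasureTheory

/-- The circumradius of the regular `n`-gon with sides of length one. -/
noncomputable def circ (n : ℕ) : ℝ := 1 / (2 * Real.sin (Real.pi / n))

/-- The apothem of the regular `n`-gon with sides of length one. -/
noncomputable def ap (n : ℕ) : ℝ := Real.cos (Real.pi / n) / (2 * Real.sin (Real.pi / n))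

/-- The regular `n`-gon with sides of length one, the centre `c`, and a vertex in the direction
`t` from the centre. -/
def ngon (n : ℕ) (c : ℂ) (t : ℝ) : Set ℂ :=
  convexHull ℝ (Set.range fun j : Fin n => c + circ n * dir (t + 2 * Real.pi * j / n))

variable {n k : ℕ} {κ : ℤ} {β ρ η : ℝ}

theorem sin_pos' (hn : 3 ≤ n) : 0 < Real.sin (Real.pi / n) := by
  have hp := Real.pi_pos
  have hn' : (3 : ℝ) ≤ n := by exact_mod_cast hn
  refine Real.sin_pos_of_pos_of_lt_pi (by positivity) ?_
  rw [div_lt_iff₀ (by positivity)]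
  nlinarith

theorem cos_pos' (hn : 3 ≤ n) : 0 < Real.cos (Real.pi / n) := by
  have hp := Real.pi_pos
  have hn' : (3 : ℝ) ≤ n := by exact_mod_cast hn
  refine Real.cos_pos_of_mem_Ioo ⟨?_, ?_⟩
  · have : 0 < Real.pi / n := by positivity
    linarith
  · rw [div_lt_iff₀ (by positivity)]
    nlinarith

theorem circ_pos (hn : 3 ≤ n) : 0 < circ n := by
  have := sin_pos' hn
  rw [circ]; positivity

theorem ap_pos (hn : 3 ≤ n) : 0 < ap n := by
  have := sin_pos' hn
  have := cos_pos' hn
  rw [ap]; positivity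

theorem circ_mul_cos : circ n * Real.cos (Real.pi / n) = ap n := by
  rw [circ, ap]; ring

theorem two_div_ap (hn : 3 ≤ n) : 2 / ap n = 4 * Real.tan (Real.pi / n) := by
  have := sin_pos' hn
  have := cos_pos' hn
  rw [ap, Real.tan_eq_sin_div_cos]
  field_simp
  ring

theorem cos_odd_le (hn : 3 ≤ n) (m : ℤ) :
    Real.cos ((2 * m - 1) * Real.pi / n) ≤ Real.cos (Real.pi / n) := by
  have hp := Real.pi_pos
  have hn' : (0 : ℝ) < n := by positivity
  have hn0 : (n : ℤ) ≠ 0 := by positivity
  have h1 : 0 ≤ m % n := Int.emod_nonneg _ hn0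
  have h2 : m % n < n := Int.emod_lt_of_pos _ (by positivity)
  obtain ⟨q, hq⟩ : ∃ q, q = m % n := ⟨_, rfl⟩
  rw [← hq] at h1 h2
  have h4 : m = q + n * (m / n) := by
    have := Int.emod_add_mul_ediv m n
    omega
  have h5 : (2 * (m : ℝ) - 1) * Real.pi / n =
      (2 * q - 1) * Real.pi / n + ((m / n : ℤ) : ℝ) * (2 * Real.pi) := by
    have : (m : ℝ) = q + n * ((m / n : ℤ) : ℝ) := by exact_mod_cast h4
    rw [this]
    field_simp
    ring
  rw [h5, Real.cos_add_int_mul_two_pi]
  rcases h1.lt_or_eq with h6 | h6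
  · rcases (show q = 1 ∨ 2 ≤ q by omega) with h7 | h7
    · rw [h7]; norm_num
    · refine (cos_lt_of (by positivity) ?_ ?_).le
      · rw [div_lt_div_iff_of_pos_right hn']
        have : (2 : ℝ) ≤ q := by exact_mod_cast h7
        nlinarith
      · rw [lt_sub_iff_add_lt, ← add_div, div_lt_iff₀ hn']
        have : (q : ℝ) < n := by exact_mod_cast h2
        nlinarith
  · rw [← h6]
    have : (2 * ((0 : ℤ) : ℝ) - 1) * Real.pi / n = -(Real.pi / n) := by push_cast; ring
    rw [this, Real.cos_neg]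

theorem cos_int_le (hn : 3 ≤ n) {m : ℤ} (hm : ¬ (n : ℤ) ∣ m) :
    Real.cos (2 * Real.pi * m / n) ≤ Real.cos (D0 n) := by
  have hp := Real.pi_pos
  have hn' : (0 : ℝ) < n := by positivity
  have hn0 : (n : ℤ) ≠ 0 := by positivity
  have h1 : 0 ≤ m % n := Int.emod_nonneg _ hn0
  have h2 : m % n < n := Int.emod_lt_of_pos _ (by positivity)
  have h3 : m % n ≠ 0 := fun h => hm (Int.dvd_of_emod_eq_zero h)
  obtain ⟨q, hq⟩ : ∃ q, q = m % n := ⟨_, rfl⟩
  rw [← hq] at h1 h2 h3
  have h4 : m = q + n * (m / n) := by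
    have := Int.emod_add_mul_ediv m n
    omega
  have h5 : 2 * Real.pi * (m : ℝ) / n =
      2 * q * Real.pi / n + ((m / n : ℤ) : ℝ) * (2 * Real.pi) := by
    have : (m : ℝ) = q + n * ((m / n : ℤ) : ℝ) := by exact_mod_cast h4
    rw [this]
    field_simp
  rw [h5, Real.cos_add_int_mul_two_pi, D0]
  rcases (show q = 1 ∨ 2 ≤ q by omega) with h7 | h7
  · rw [h7]; norm_num
  · rcases (show q = n - 1 ∨ q ≤ n - 2 by omega) with h8 | h8
    · have : 2 * (q : ℝ) * Real.pi / n = 2 * Real.pi - 2 * Real.pi / n := by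
        have : (q : ℝ) = n - 1 := by rw [h8]; push_cast; ring
        rw [this]
        field_simp
      rw [this, Real.cos_two_pi_sub]
    · refine (cos_lt_of (by positivity) ?_ ?_).le
      · rw [div_lt_div_iff_of_pos_right hn']
        have : (2 : ℝ) ≤ q := by exact_mod_cast h7
        nlinarith
      · rw [lt_sub_iff_add_lt, ← add_div, div_lt_iff₀ hn']
        have : (q : ℝ) ≤ n - 2 := by
          have : (q : ℤ) ≤ (n : ℤ) - 2 := h8
          exact_mod_cast this
        nlinarith

/-- The fan of a regular polygon. -/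
theorem polyFan (hn : 3 ≤ n) (t : ℝ) :
    Fan n (fun i => t + 2 * Real.pi * i / n) (fun _ => circ n) := by
  have hp := Real.pi_pos
  have hn' : (3 : ℝ) ≤ n := by exact_mod_cast hn
  have hn0 : (0 : ℝ) < n := by positivity
  have h1 : ∀ i : ℕ, (t + 2 * Real.pi * ((i + 1 : ℕ) : ℝ) / n) - (t + 2 * Real.pi * i / n) =
      D0 n := by
    intro i
    rw [D0]
    push_cast
    ring
  refine ⟨by omega, fun _ _ => circ_pos hn, fun i _ => ?_, fun i _ => ?_, ?_, rfl⟩
  · have := h1 i
    have := D0_pos hn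
    linarith
  · have := h1 i
    have := D0_lt hn
    linarith
  · push_cast
    field_simp
    ring

theorem vert_poly (t : ℝ) (i : ℕ) : vert (fun i => t + 2 * Real.pi * i / n) (fun _ => circ n) i =
    circ n * dir (t + 2 * Real.pi * i / n) := rfl

theorem LL_vert (t : ℝ) (i : ℕ) (j : ℤ) : LL (t + (2 * j + 1) * Real.pi / n)
    (circ n * dir (t + 2 * Real.pi * i / n)) =
    circ n * Real.cos ((2 * ((i : ℤ) - j : ℤ) - 1) * Real.pi / n) := by
  rw [LL_dir]
  congr 2
  push_cast
  ring

theorem mem_hull_vert (c : ℂ) (t : ℝ) (hn : 3 ≤ n) (i : ℕ) (hi : i ≤ n) :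
    c + circ n * dir (t + 2 * Real.pi * i / n) ∈ ngon n c t := by
  refine subset_convexHull ℝ _ ?_
  rcases hi.lt_or_eq with h | h
  · exact ⟨⟨i, h⟩, rfl⟩
  · refine ⟨⟨0, by omega⟩, ?_⟩
    have hn' : (n : ℝ) ≠ 0 := by positivity
    have : t + 2 * Real.pi * i / n = t + 2 * Real.pi := by rw [h]; field_simp
    simp only [this, Nat.cast_zero, mul_zero, zero_div, add_zero, dir_add t (2 * Real.pi),
      dir_two_pi, mul_one]

theorem convex_mem3 {S : Set ℂ} (hS : Convex ℝ S) {x y z : ℂ} (hx : x ∈ S) (hy : y ∈ S)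
    (hz : z ∈ S) {a b c : ℝ} (ha : 0 ≤ a) (hb : 0 ≤ b) (hc : 0 ≤ c) (h : a + b + c = 1) :
    (a : ℂ) * x + b * y + c * z ∈ S := by
  rcases (add_nonneg ha hb).lt_or_eq with h1 | h1
  · have h2 : (a / (a + b)) • x + (b / (a + b)) • y ∈ S :=
      hS hx hy (by positivity) (by positivity) (by field_simp)
    have h3 := hS h2 hz (a := a + b) (b := c) h1.le hc h
    convert h3 using 1
    rw [Complex.real_smul, Complex.real_smul, Complex.real_smul, Complex.real_smul]
    have : ((a : ℂ) + b) ≠ 0 := by exact_mod_cast h1.ne'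
    push_cast
    field_simp
  · have ha0 : a = 0 := by linarith
    have hb0 : b = 0 := by linarith
    have hc1 : c = 1 := by linarith
    rw [ha0, hb0, hc1]
    simpa using hz

theorem centre_mem (c : ℂ) (t : ℝ) (hn : 3 ≤ n) : c ∈ ngon n c t := by
  obtain ⟨i, hi, a, b, ha, hb, h⟩ := (polyFan hn t).cover (-(circ n * dir (t + 2 * Real.pi *
    (0 : ℕ) / n)))
  rw [vert_poly, vert_poly] at h
  have h0 := mem_hull_vert c t hn 0 (by omega)
  have h1 := mem_hull_vert c t hn i hi.le
  have h2 := mem_hull_vert c t hn (i + 1) hi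
  have h3 := convex_mem3 (S := ngon n c t) (convex_convexHull ℝ _) h0 h1 h2 (a := 1 / (1 + a + b))
    (b := a / (1 + a + b)) (c := b / (1 + a + b)) (by positivity) (by positivity) (by positivity)
    (by field_simp)
  convert h3 using 1
  have h4 : (1 + (a : ℂ) + b) ≠ 0 := by
    have : (0 : ℝ) < 1 + a + b := by positivity
    exact_mod_cast this.ne'
  clear h0 h1 h2 h3
  generalize dir (t + 2 * Real.pi * ((0 : ℕ) : ℝ) / n) = u0 at h ⊢
  generalize dir (t + 2 * Real.pi * (i : ℝ) / n) = u1 at h ⊢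
  generalize dir (t + 2 * Real.pi * ((i + 1 : ℕ) : ℝ) / n) = u2 at h ⊢
  push_cast
  field_simp
  linear_combination h

/-- A regular polygon is the intersection of half planes. -/
theorem mem_ngon (c : ℂ) (t : ℝ) (hn : 3 ≤ n) (x : ℂ) :
    x ∈ ngon n c t ↔ ∀ j : ℤ, LL (t + (2 * j + 1) * Real.pi / n) (x - c) ≤ ap n := by
  constructor
  · intro hx j
    have hconv : Convex ℝ {x : ℂ | LL (t + (2 * j + 1) * Real.pi / n) (x - c) ≤ ap n} := by
      intro x hx y hy a b ha hb hab
      simp only [Set.mem_ofPred_eq] at hx hy ⊢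
      have e : a • x + b • y - c = a * (x - c) + b * (y - c) := by
        rw [Complex.real_smul, Complex.real_smul]
        have : (a : ℂ) + b = 1 := by exact_mod_cast hab
        linear_combination c * this
      rw [e, LL_add]
      have g1 := mul_le_mul_of_nonneg_left hx ha
      have g2 := mul_le_mul_of_nonneg_left hy hb
      have g3 : a * ap n + b * ap n = ap n := by rw [← add_mul, hab, one_mul]
      linarith
    refine convexHull_min ?_ hconv hx
    rintro _ ⟨i, rfl⟩
    simp only [Set.mem_ofPred_eq, add_sub_cancel_left]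
    have := LL_vert (n := n) t i j
    rw [this, ← circ_mul_cos]
    exact mul_le_mul_of_nonneg_left (cos_odd_le hn _) (circ_pos hn).le
  · intro h
    obtain ⟨i, hi, a, b, ha, hb, hx⟩ := (polyFan hn t).cover (x - c)
    rw [vert_poly, vert_poly] at hx
    have h1 := h i
    have e1 := LL_vert (n := n) t i i
    have e2 := LL_vert (n := n) t (i + 1) i
    have c1 : Real.cos ((2 * (((i : ℤ) - (i : ℤ) : ℤ) : ℝ) - 1) * Real.pi / n) =
        Real.cos (Real.pi / n) := by
      have : (2 * (((i : ℤ) - (i : ℤ) : ℤ) : ℝ) - 1) * Real.pi / n = -(Real.pi / n) := by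
        push_cast; ring
      rw [this, Real.cos_neg]
    have c2 : Real.cos ((2 * ((((i + 1 : ℕ) : ℤ) - (i : ℤ) : ℤ) : ℝ) - 1) * Real.pi / n) =
        Real.cos (Real.pi / n) := by
      congr 1
      push_cast; ring
    rw [c1, circ_mul_cos] at e1
    rw [c2, circ_mul_cos] at e2
    rw [hx, LL_add, e1, e2] at h1
    have hap := ap_pos hn
    have hab : a + b ≤ 1 := by
      by_contra hc
      push Not at hc
      nlinarith
    have h2 := convex_mem3 (S := ngon n c t) (convex_convexHull ℝ _) (centre_mem c t hn)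
      (mem_hull_vert c t hn i hi.le) (mem_hull_vert c t hn (i + 1) hi) (a := 1 - a - b)
      (b := a) (c := b) (by linarith) ha hb (by ring)
    convert h2 using 1
    push_cast at hx ⊢
    linear_combination hx

theorem LL_sub (t : ℝ) (x y : ℂ) : LL t (x - y) = LL t x - LL t y := by
  simp only [LL, Complex.sub_re, Complex.sub_im]; ring

/-- The union of a shifted setup. -/
theorem union_eq (hn : 3 ≤ n) (hk : 1 ≤ k) (hκ : (n : ℤ) ∣ κ * k - 1) :
    (⋃ s : Fin k, ngon n (η * dir (β + 2 * Real.pi * s / k)) (β + 2 * Real.pi * s / k)) =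
      UU n k κ β (ap n) η := by
  have hk' : (k : ℝ) ≠ 0 := by positivity
  have hn' : (n : ℝ) ≠ 0 := by positivity
  obtain ⟨m0, hm0⟩ := hκ
  have key : ∀ (x : ℂ) (s j : ℤ),
      LL (β + 2 * Real.pi * s / k + (2 * j + 1) * Real.pi / n)
        (x - η * dir (β + 2 * Real.pi * s / k)) ≤ ap n ↔
      LL (ph n k β (s * n + j * k)) x ≤ hh n κ (ap n) η (s * n + j * k) := by
    intro x s j
    rw [LL_sub, LL_dir]
    have e1 : β + 2 * Real.pi * s / k + (2 * j + 1) * Real.pi / n =
        ph n k β (s * n + j * k) := by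
      rw [ph]; push_cast; field_simp; ring
    have e2 : Real.cos (β + 2 * Real.pi * s / k - ph n k β (s * n + j * k)) =
        Real.cos ((2 * κ * (s * n + j * k : ℤ) + 1) * Real.pi / n) := by
      rw [← e1]
      have h1 : (β + 2 * Real.pi * s / k) - (β + 2 * Real.pi * s / k +
          (2 * j + 1) * Real.pi / n) = -((2 * j + 1) * Real.pi / n) := by ring
      have h2 : (2 * (κ : ℝ) * (s * n + j * k : ℤ) + 1) * Real.pi / n =
          (2 * j + 1) * Real.pi / n + ((κ * s + j * m0 : ℤ) : ℝ) * (2 * Real.pi) := by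
        have : (κ : ℝ) * k - 1 = n * m0 := by exact_mod_cast hm0
        push_cast
        field_simp
        linear_combination (2 * (j : ℝ)) * this
      rw [h1, h2, Real.cos_neg, Real.cos_add_int_mul_two_pi]
    rw [e1, e2, hh]
    constructor <;> intro h <;> linarith
  ext x
  simp only [Set.mem_iUnion]
  constructor
  · rintro ⟨s, hs⟩
    rw [mem_ngon _ _ hn] at hs
    refine ⟨(s : ℕ) * n, fun j => ?_⟩
    have h := hs j
    have h' := (key x ((s : ℕ) : ℤ) j).mp (by push_cast at h ⊢; exact h)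
    exact h'
  · rintro ⟨m, hm⟩
    have hk0 : (k : ℤ) ≠ 0 := by positivity
    have h1 : 0 ≤ (m * (-m0)) % k := Int.emod_nonneg _ hk0
    have h2 : (m * (-m0)) % k < k := Int.emod_lt_of_pos _ (by positivity)
    obtain ⟨s, hs⟩ := Int.eq_ofNat_of_zero_le h1
    have hsk : s < k := by omega
    refine ⟨⟨s, hsk⟩, ?_⟩
    rw [mem_ngon _ _ hn]
    intro j
    have h3 := Int.emod_add_mul_ediv (m * (-m0)) k
    rw [hs] at h3
    -- `m = s n + c k`
    obtain ⟨c, hc⟩ : ∃ c : ℤ, m = s * n + c * k := by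
      refine ⟨κ * m + (m * -m0 / k) * n, ?_⟩
      have h4 : (s : ℤ) = m * -m0 - k * (m * -m0 / k) := by linarith
      rw [h4]
      linear_combination (-m) * hm0
    have h5 := hm (j - c)
    have e : m + (j - c) * k = s * n + j * k := by rw [hc]; ring
    rw [e] at h5
    have h6 := (key x (s : ℤ) j).mpr h5
    push_cast at h6 ⊢
    exact h6

end Q47.Setup
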