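import Pool.Agent.Q47.Setup.Polygon

/-!
The ratio of perimeter and area.
-/

set_option autoImplicit false

namespace Q47.Setup

open Complex Filter Topology MeasureTheory
open scoped MeasureTheory

/-- The perimeter: the length of the boundary. -/
noncomputable def perim (U : Set ℂ) : ℝ := (μH[1] (frontier U)).toReal

/-- The area. -/
noncomputable def areaOf (U : Set ℂ) : ℝ := (volume U).toReal

variable {n k : ℕ} {κ : ℤ} {β ρ η : ℝ}

theorem half_tan {x : ℝ} (h0 : 0 < x) (h1 : x < Real.pi) :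
    (1 - Real.cos x) / Real.sin x = Real.tan (x / 2) := by
  have hs : 0 < Real.sin (x / 2) := Real.sin_pos_of_pos_of_lt_pi (by linarith) (by linarith)
  have hc : 0 < Real.cos (x / 2) := Real.cos_pos_of_mem_Ioo ⟨by linarith, by linarith⟩
  have e1 : Real.sin x = 2 * Real.sin (x / 2) * Real.cos (x / 2) := by
    rw [← Real.sin_two_mul]; ring_nf
  have e2 : Real.cos x = 1 - 2 * Real.sin (x / 2) ^ 2 := by
    have := Real.cos_two_mul (x / 2)
    have h3 := Real.sin_sq_add_cos_sq (x / 2)
    have h4 : 2 * (x / 2) = x := by ring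
    rw [h4] at this
    rw [this]; linarith
  rw [e1, e2, Real.tan_eq_sin_div_cos]
  field_simp
  ring

/-- The difference of the two tangents. -/
noncomputable def XX (n k : ℕ) : ℝ := (1 - Real.cos (D0 n)) / Real.sin (D0 n) -
        (1 - Real.cos (D1 n k)) / Real.sin (D1 n k)

theorem XX_pos (hn : 3 ≤ n) (hk : 2 ≤ k) : 0 < XX n k := by
  rw [XX, half_tan (D0_pos hn) (D0_lt hn), half_tan (D1_pos hn hk) (D1_lt hn hk), sub_pos]
  have h1 := D1_lt_D0 hn hk
  have h2 := D0_lt hn
  have h3 := D1_pos hn hk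
  exact Real.tan_lt_tan_of_nonneg_of_lt_pi_div_two (by linarith) (by linarith) (by linarith)

/-- The second order term. -/
noncomputable def YY (n k : ℕ) (κ : ℤ) : ℝ :=
  (Real.cos (2 * Real.pi * (κ - 1) / n) - Real.cos (D1 n k)) / Real.sin (D1 n k)

theorem YY_pos_iff (hn : 3 ≤ n) (hk : 2 ≤ k) : 0 < YY n k κ ↔ (n : ℤ) ∣ κ - 1 := by
  have hs := sin_D1 hn hk
  have h1 := D1_pos hn hk
  have h2 := D1_lt_D0 hn hk
  have h3 := D0_lt hn
  have e : (2 * Real.pi * ((κ : ℝ) - 1) / n) = 2 * Real.pi * ((κ - 1 : ℤ) : ℝ) / n := by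
    push_cast; ring
  rw [YY, e]
  constructor
  · intro h
    by_contra hc
    have h4 := cos_int_le hn hc
    have h5 : Real.cos (D0 n) < Real.cos (D1 n k) :=
      Real.cos_lt_cos_of_nonneg_of_le_pi h1.le h3.le h2
    have h6 := (div_pos_iff_of_pos_right hs).mp h
    linarith
  · rintro ⟨m, hm⟩
    have hn' : (n : ℝ) ≠ 0 := by positivity
    have h4 : 2 * Real.pi * ((κ - 1 : ℤ) : ℝ) / n = 0 + m * (2 * Real.pi) := by
      rw [hm]; push_cast; field_simp; ring
    rw [h4, Real.cos_add_int_mul_two_pi, Real.cos_zero]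
    refine div_pos ?_ hs
    have : Real.cos (D1 n k) < Real.cos 0 :=
      Real.cos_lt_cos_of_nonneg_of_le_pi le_rfl (h2.trans h3).le h1
    rw [Real.cos_zero] at this
    linarith

/-- Area and perimeter for small shifts. -/
theorem eventually_formulas (hρ : 0 < ρ) (hn : 3 ≤ n) (hk : 2 ≤ k)
    (hκ : (n : ℤ) ∣ κ * k - 1) : ∀ᶠ η in 𝓝 (0 : ℝ),
      perim (UU n k κ β ρ η) = 2 * (k * n * ρ) * XX n k ∧
      areaOf (UU n k κ β ρ η) = k * n * ρ ^ 2 * XX n k - k * n * η ^ 2 / 2 * YY n k κ ∧
      0 < areaOf (UU n k κ β ρ η) := by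
  have hX := XX_pos hn hk
  have hpos : 0 < (k : ℝ) * n * ρ ^ 2 * XX n k := by positivity
  have h1 : ∀ᶠ η in 𝓝 (0 : ℝ),
      0 < k * n * ρ ^ 2 * XX n k - k * n * η ^ 2 / 2 * YY n k κ := by
    have hc : Continuous fun η : ℝ => k * n * ρ ^ 2 * XX n k - k * n * η ^ 2 / 2 * YY n k κ := by
      fun_prop
    have ht := hc.tendsto 0
    have e : (k : ℝ) * n * ρ ^ 2 * XX n k - k * n * (0 : ℝ) ^ 2 / 2 * YY n k κ =
      k * n * ρ ^ 2 * XX n k := by ring
    rw [e] at ht
    exact ht.eventually_const_lt hpos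
  filter_upwards [eventually_good (κ := κ) (β := β) hρ hn hk, h1] with η G h2
  have e1 : perim (UU n k κ β ρ η) = 2 * (k * n * ρ) * XX n k := by
    rw [perim, perimeter hρ hn hk hκ G]
    exact ENNReal.toReal_ofReal (by rw [← XX]; positivity)
  have e2 : areaOf (UU n k κ β ρ η) = k * n * ρ ^ 2 * XX n k - k * n * η ^ 2 / 2 * YY n k κ := by
    rw [areaOf, area hρ hn hk hκ G]
    exact ENNReal.toReal_ofReal h2.le
  exact ⟨e1, e2, by rw [e2]; exact h2⟩

/-- The comparison of the ratios. -/
theorem ratio_iff (hn : 3 ≤ n) (hk : 2 ≤ k) (hκ : (n : ℤ) ∣ κ * k - 1) :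
    ∀ᶠ η in 𝓝 (0 : ℝ), η ≠ 0 →
      (4 * Real.tan (Real.pi / n) < perim (UU n k κ β (ap n) η) / areaOf (UU n k κ β (ap n) η) ↔
        (n : ℤ) ∣ κ - 1) := by
  have hρ := ap_pos hn
  filter_upwards [eventually_formulas (κ := κ) (β := β) hρ hn hk hκ] with η h hη
  obtain ⟨h1, h2, h3⟩ := h
  rw [← YY_pos_iff (κ := κ) hn hk, ← two_div_ap hn, div_lt_div_iff₀ hρ h3, h1, h2]
  have hX := XX_pos hn hk
  have hkn : 0 < (k : ℝ) * n * η ^ 2 := by positivity
  constructor
  · intro h
    have h4 : 0 < ((k : ℝ) * n * η ^ 2) * YY n k κ := by nlinarith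
    exact (pos_iff_pos_of_mul_pos h4).mp hkn
  · intro h
    have h4 : 0 < ((k : ℝ) * n * η ^ 2) * YY n k κ := by positivity
    nlinarith

/-! ### A single polygon -/

theorem star_ngon (hn : 3 ≤ n) (t : ℝ) :
    IsStar n (fun i => t + 2 * Real.pi * i / n) (fun _ => circ n) (ngon n 0 t) := by
  intro i hi a b ha hb
  rw [vert_poly, vert_poly]
  have e1 := LL_vert (n := n) t i i
  have e2 := LL_vert (n := n) t (i + 1) i
  have c1 : Real.cos ((2 * (((i : ℤ) - (i : ℤ) : ℤ) : ℝ) - 1) * Real.pi / n) =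
      Real.cos (Real.pi / n) := by
    have : (2 * (((i : ℤ) - (i : ℤ) : ℤ) : ℝ) - 1) * Real.pi / n = -(Real.pi / n) := by
      push_cast; ring
    rw [this, Real.cos_neg]
  have c2 : Real.cos ((2 * ((((i + 1 : ℕ) : ℤ) - (i : ℤ) : ℤ) : ℝ) - 1) * Real.pi / n) =
      Real.cos (Real.pi / n) := by
    congr 1
    push_cast; ring
  rw [c1, circ_mul_cos] at e1
  rw [c2, circ_mul_cos] at e2
  have hap := ap_pos hn
  constructor
  · intro h
    rw [mem_ngon _ _ hn] at h
    have h1 := h i
    rw [sub_zero, LL_add, e1, e2] at h1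
    by_contra hc
    push Not at hc
    nlinarith
  · intro hab
    have h2 := convex_mem3 (S := ngon n 0 t) (convex_convexHull ℝ _) (centre_mem 0 t hn)
      (mem_hull_vert 0 t hn i hi.le) (mem_hull_vert 0 t hn (i + 1) hi) (a := 1 - a - b)
      (b := a) (c := b) (by linarith) ha hb (by ring)
    convert h2 using 1
    push_cast
    ring

theorem side_ngon (hn : 3 ≤ n) (t : ℝ) (i : ℕ) :
    ‖(circ n : ℂ) * dir (t + 2 * Real.pi * ((i + 1 : ℕ) : ℝ) / n) -
      circ n * dir (t + 2 * Real.pi * i / n)‖ = 1 := by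
  have hs := sin_pos' hn
  obtain ⟨s, hs'⟩ : ∃ s, s = t + 2 * Real.pi * i / n + Real.pi / n := ⟨_, rfl⟩
  have h1 : t + 2 * Real.pi * ((i + 1 : ℕ) : ℝ) / n = s + Real.pi / n := by
    rw [hs']; push_cast; ring
  have h2 : t + 2 * Real.pi * i / n = s + -(Real.pi / n) := by rw [hs']; ring
  rw [h1, h2, dir_add, dir_add]
  have h3 : dir (Real.pi / n) - dir (-(Real.pi / n)) = (2 * Real.sin (Real.pi / n) : ℝ) * I := by
    apply Complex.ext
    · rw [Complex.sub_re, dir_re, dir_re, Real.cos_neg, Complex.mul_re, Complex.ofReal_re,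
        Complex.ofReal_im, Complex.I_re]
      ring
    · rw [Complex.sub_im, dir_im, dir_im, Real.sin_neg, Complex.mul_im, Complex.ofReal_re,
        Complex.ofReal_im, Complex.I_im]
      ring
  have h4 : (circ n : ℂ) * (dir s * dir (Real.pi / n)) - circ n * (dir s * dir (-(Real.pi / n))) =
      circ n * dir s * (dir (Real.pi / n) - dir (-(Real.pi / n))) := by ring
  rw [h4, h3, norm_mul, norm_mul, norm_mul, norm_dir, Complex.norm_I, Complex.norm_real,
    Complex.norm_real, Real.norm_of_nonneg (circ_pos hn).le, Real.norm_of_nonneg (by positivity),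
    circ]
  field_simp

theorem ngon_zero (hn : 3 ≤ n) (t : ℝ) :
    perim (ngon n 0 t) = n ∧ areaOf (ngon n 0 t) = n * ap n / 2 := by
  have F := polyFan hn t
  have hS := star_ngon hn t
  constructor
  · rw [perim, star_length F hS]
    have : ∑ i ∈ Finset.range n, ‖vert (fun i => t + 2 * Real.pi * i / n) (fun _ => circ n) (i + 1)
        - vert (fun i => t + 2 * Real.pi * i / n) (fun _ => circ n) i‖ = n := by
      have : ∀ i ∈ Finset.range n, ‖vert (fun i => t + 2 * Real.pi * i / n) (fun _ => circ n)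
          (i + 1) - vert (fun i => t + 2 * Real.pi * i / n) (fun _ => circ n) i‖ = 1 := by
        intro i _
        rw [vert_poly, vert_poly]
        exact side_ngon hn t i
      rw [Finset.sum_congr rfl this]
      simp
    rw [this]
    exact ENNReal.toReal_ofReal (by positivity)
  · rw [areaOf, star_volume F hS]
    have hs := sin_pos' hn
    have hap := ap_pos hn
    have : ∑ i ∈ Finset.range n, det (vert (fun i => t + 2 * Real.pi * i / n) (fun _ => circ n) i)
        (vert (fun i => t + 2 * Real.pi * i / n) (fun _ => circ n) (i + 1)) / 2 =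
        n * ap n / 2 := by
      have : ∀ i ∈ Finset.range n, det (vert (fun i => t + 2 * Real.pi * i / n) (fun _ => circ n) i)
        (vert (fun i => t + 2 * Real.pi * i / n) (fun _ => circ n) (i + 1)) / 2 = ap n / 2 := by
        intro i _
        rw [vert_poly, vert_poly]
        congr 1
        have h1 : t + 2 * Real.pi * ((i + 1 : ℕ) : ℝ) / n =
            t + 2 * Real.pi * i / n + 2 * (Real.pi / n) := by push_cast; ring
        rw [h1]
        generalize t + 2 * Real.pi * i / n = u
        simp only [det, Complex.mul_re, Complex.mul_im, Complex.ofReal_re, Complex.ofReal_im,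
          dir_re, dir_im, zero_mul, sub_zero, add_zero]
        have h2 : circ n * Real.cos u * (circ n * Real.sin (u + 2 * (Real.pi / n))) -
            circ n * Real.sin u * (circ n * Real.cos (u + 2 * (Real.pi / n))) =
            circ n ^ 2 * Real.sin (2 * (Real.pi / n)) := by
          have := Real.sin_sub (u + 2 * (Real.pi / n)) u
          rw [add_sub_cancel_left] at this
          rw [this]; ring
        rw [h2, Real.sin_two_mul, circ, ap]
        field_simp
      rw [Finset.sum_congr rfl this]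
      simp
      ring
    rw [this]
    exact ENNReal.toReal_ofReal (by positivity)

theorem ngon_translate (hn : 3 ≤ n) (c : ℂ) (t : ℝ) :
    ngon n c t = (IsometryEquiv.addLeft c) '' ngon n 0 t := by
  ext x
  constructor
  · intro hx
    refine ⟨x - c, ?_, by simp⟩
    rw [mem_ngon _ _ hn] at hx ⊢
    simpa using hx
  · rintro ⟨y, hy, rfl⟩
    rw [mem_ngon _ _ hn] at hy ⊢
    simpa using hy

theorem ngon_formulas (hn : 3 ≤ n) (c : ℂ) (t : ℝ) :
    perim (ngon n c t) = n ∧ areaOf (ngon n c t) = n * ap n / 2 := by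
  have h0 := ngon_zero hn t
  rw [ngon_translate hn]
  constructor
  · rw [← h0.1, perim, perim]
    congr 1
    have : frontier (IsometryEquiv.addLeft c '' ngon n 0 t) =
        IsometryEquiv.addLeft c '' frontier (ngon n 0 t) :=
      ((IsometryEquiv.addLeft c).toHomeomorph.image_frontier _).symm
    rw [this]
    exact IsometryEquiv.hausdorffMeasure_image _ _ _
  · rw [← h0.2, areaOf, areaOf]
    congr 1
    have : (IsometryEquiv.addLeft c : ℂ → ℂ) '' ngon n 0 t = (fun x => c + x) '' ngon n 0 t := rfl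
    rw [this, Set.image_add_left, measure_preimage_add]

theorem ngon_ratio (hn : 3 ≤ n) (c : ℂ) (t : ℝ) :
    perim (ngon n c t) / areaOf (ngon n c t) = 4 * Real.tan (Real.pi / n) := by
  obtain ⟨h1, h2⟩ := ngon_formulas hn c t
  rw [h1, h2, ← two_div_ap hn]
  have := ap_pos hn
  have : (0 : ℝ) < n := by positivity
  field_simp

end Q47.Setup
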