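import Pool.Agent.Q47.Setup.Angle

/-!
Area and perimeter of a star shaped polygon.
-/

set_option autoImplicit false

namespace Q47.Setup

open Complex MeasureTheory
open scoped MeasureTheory

/-- The cross product. -/
noncomputable def det (z w : ℂ) : ℝ := z.re * w.im - z.im * w.re

/-- The standard triangle. -/
def std : Set ℂ := {z | 0 ≤ z.re ∧ 0 ≤ z.im ∧ z.re + z.im ≤ 1}

theorem isClosed_std : IsClosed std := by
  refine IsClosed.inter (isClosed_le continuous_const Complex.continuous_re)
    (IsClosed.inter (isClosed_le continuous_const Complex.continuous_im)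
    (isClosed_le (Complex.continuous_re.add Complex.continuous_im) continuous_const))

theorem volume_std : volume std = ENNReal.ofReal (1 / 2) := by
  set T : Set (ℝ × ℝ) := {p | 0 ≤ p.1 ∧ 0 ≤ p.2 ∧ p.1 + p.2 ≤ 1} with hT
  have hTm : MeasurableSet T := by
    apply IsClosed.measurableSet
    exact IsClosed.inter (isClosed_le continuous_const continuous_fst)
      (IsClosed.inter (isClosed_le continuous_const continuous_snd)
      (isClosed_le (continuous_fst.add continuous_snd) continuous_const))
  have h1 : std = Complex.measurableEquivRealProd ⁻¹' T := by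
    ext z
    simp [std, hT, Complex.measurableEquivRealProd_apply]
  rw [h1, Complex.volume_preserving_equiv_real_prod.measure_preimage hTm.nullMeasurableSet]
  rw [MeasureTheory.Measure.volume_eq_prod, MeasureTheory.Measure.prod_apply hTm]
  have h2 : ∀ x : ℝ, volume (Prod.mk x ⁻¹' T) =
      (Set.Icc (0 : ℝ) 1).indicator (fun x => ENNReal.ofReal (1 - x)) x := by
    intro x
    by_cases hx : x ∈ Set.Icc (0 : ℝ) 1
    · rw [Set.indicator_of_mem hx]
      have : Prod.mk x ⁻¹' T = Set.Icc 0 (1 - x) := by
        ext y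
        simp only [hT, Set.mem_preimage, Set.mem_ofPred_eq, Set.mem_Icc]
        constructor
        · rintro ⟨-, h2, h3⟩; exact ⟨h2, by linarith⟩
        · rintro ⟨h2, h3⟩; exact ⟨hx.1, h2, by linarith⟩
      rw [this, Real.volume_Icc, sub_zero]
    · rw [Set.indicator_of_notMem hx]
      have : Prod.mk x ⁻¹' T = ∅ := by
        ext y
        simp only [hT, Set.mem_preimage, Set.mem_ofPred_eq, Set.mem_empty_iff_false, iff_false]
        rintro ⟨h1, h2, h3⟩
        exact hx ⟨h1, by linarith⟩
      rw [this, measure_empty]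
  simp_rw [h2]
  rw [lintegral_indicator measurableSet_Icc, ← ofReal_integral_eq_lintegral_ofReal]
  · congr 1
    rw [integral_Icc_eq_integral_Ioc, ← intervalIntegral.integral_of_le zero_le_one,
      intervalIntegral.integral_sub (by simp) (by simp)]
    simp
    norm_num
  · exact (Continuous.integrableOn_Icc (by fun_prop))
  · refine (ae_restrict_iff' measurableSet_Icc).mpr (Filter.Eventually.of_forall fun x hx => ?_)
    simp only [Pi.zero_apply]
    linarith [hx.2]

/-- The real linear map with `1 ↦ z`, `I ↦ w`. -/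
noncomputable def lin (z w : ℂ) : ℂ →ₗ[ℝ] ℂ where
  toFun x := x.re * z + x.im * w
  map_add' x y := by simp only [Complex.add_re, Complex.add_im]; push_cast; ring
  map_smul' a x := by
    simp only [Complex.real_smul, Complex.mul_re, Complex.mul_im, Complex.ofReal_re,
      Complex.ofReal_im, zero_mul, sub_zero, add_zero, RingHom.id_apply]
    push_cast; ring

theorem det_lin (z w : ℂ) : LinearMap.det (lin z w) = det z w := by
  rw [← LinearMap.det_toMatrix Complex.basisOneI, Matrix.det_fin_two]
  simp [LinearMap.toMatrix_apply, lin, det, Complex.basisOneI]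
  ring

/-- The triangle with the vertices `0`, `z`, `w`. -/
def tri (z w : ℂ) : Set ℂ :=
  {x | ∃ a b : ℝ, 0 ≤ a ∧ 0 ≤ b ∧ a + b ≤ 1 ∧ x = a * z + b * w}

theorem tri_eq (z w : ℂ) : tri z w = lin z w '' std := by
  ext x
  constructor
  · rintro ⟨a, b, ha, hb, hab, rfl⟩
    exact ⟨⟨a, b⟩, ⟨ha, hb, hab⟩, rfl⟩
  · rintro ⟨y, ⟨ha, hb, hab⟩, rfl⟩
    exact ⟨y.re, y.im, ha, hb, hab, rfl⟩

theorem volume_tri (z w : ℂ) : volume (tri z w) = ENNReal.ofReal (|det z w| / 2) := by
  rw [tri_eq, Measure.addHaar_image_linearMap, det_lin, volume_std,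
    ← ENNReal.ofReal_mul (abs_nonneg _)]
  congr 1
  ring

theorem isCompact_std : IsCompact std := by
  refine Metric.isCompact_of_isClosed_isBounded isClosed_std ?_
  refine (Metric.isBounded_iff_subset_closedBall 0).mpr ⟨2, ?_⟩
  rintro z ⟨h1, h2, h3⟩
  rw [mem_closedBall_zero_iff]
  refine (Complex.norm_le_abs_re_add_abs_im z).trans ?_
  rw [abs_of_nonneg h1, abs_of_nonneg h2]
  linarith

theorem isCompact_tri (z w : ℂ) : IsCompact (tri z w) := by
  rw [tri_eq]
  exact isCompact_std.image (LinearMap.continuous_of_finiteDimensional _)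

theorem measure_span (z : ℂ) : volume ((ℝ ∙ z : Submodule ℝ ℂ) : Set ℂ) = 0 := by
  apply Measure.addHaar_submodule
  intro h
  have h1 : Module.finrank ℝ (ℝ ∙ z : Submodule ℝ ℂ) ≤ 1 := by
    have := finrank_span_le_card (R := ℝ) ({z} : Set ℂ)
    simpa using this
  rw [h, finrank_top, Complex.finrank_real_complex] at h1
  omega

variable {N : ℕ} {θ r : ℕ → ℝ}

/-- `U` is the star shaped polygon with the given vertices. -/
def IsStar (N : ℕ) (θ r : ℕ → ℝ) (U : Set ℂ) : Prop :=
  ∀ i < N, ∀ a b : ℝ, 0 ≤ a → 0 ≤ b →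
    ((a : ℂ) * vert θ r i + b * vert θ r (i + 1) ∈ U ↔ a + b ≤ 1)

theorem star_eq (F : Fan N θ r) {U : Set ℂ} (hU : IsStar N θ r U) :
    U = ⋃ i ∈ Finset.range N, tri (vert θ r i) (vert θ r (i + 1)) := by
  ext z
  simp only [Finset.mem_range, Set.mem_iUnion, exists_prop]
  constructor
  · intro hz
    obtain ⟨i, hi, a, b, ha, hb, rfl⟩ := F.cover z
    exact ⟨i, hi, a, b, ha, hb, (hU i hi a b ha hb).mp hz, rfl⟩
  · rintro ⟨i, hi, a, b, ha, hb, hab, rfl⟩
    exact (hU i hi a b ha hb).mpr hab

theorem star_closed (F : Fan N θ r) {U : Set ℂ} (hU : IsStar N θ r U) : IsClosed U := by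
  rw [star_eq F hU]
  exact (Finset.isCompact_biUnion _ fun i _ => isCompact_tri _ _).isClosed

theorem det_vert (F : Fan N θ r) {i : ℕ} (hi : i < N) :
    0 < det (vert θ r i) (vert θ r (i + 1)) := by
  have h1 : det (vert θ r i) (vert θ r (i + 1)) = r i * r (i + 1) *
      Real.sin (θ (i + 1) - θ i) := by
    simp only [det, vert, Complex.mul_re, Complex.mul_im, Complex.ofReal_re, Complex.ofReal_im,
      dir_re, dir_im, Real.sin_sub]
    ring
  rw [h1]
  have h2 := F.lt i hi
  have h3 := F.gap i hi
  have := F.r_pos i hi.le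
  have := F.r_pos (i + 1) hi
  have : 0 < Real.sin (θ (i + 1) - θ i) := Real.sin_pos_of_pos_of_lt_pi (by linarith) h3
  positivity

theorem star_volume (F : Fan N θ r) {U : Set ℂ} (hU : IsStar N θ r U) :
    volume U = ENNReal.ofReal (∑ i ∈ Finset.range N,
      det (vert θ r i) (vert θ r (i + 1)) / 2) := by
  rw [star_eq F hU, measure_biUnion_finset₀]
  · rw [ENNReal.ofReal_sum_of_nonneg]
    · refine Finset.sum_congr rfl fun i hi => ?_
      rw [volume_tri, abs_of_pos (det_vert F (Finset.mem_range.mp hi))]
    · intro i hi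
      exact (half_pos (det_vert F (Finset.mem_range.mp hi))).le
  · intro i hi j hj hij
    have hi' : i < N := Finset.mem_range.mp hi
    have hj' : j < N := Finset.mem_range.mp hj
    refine measure_mono_null ?_ (measure_union_null (measure_span (vert θ r i))
      (measure_span (vert θ r (i + 1))))
    rintro z ⟨⟨a, b, ha, hb, -, rfl⟩, ⟨a', b', ha', hb', -, h⟩⟩
    rcases ha.lt_or_eq with h1 | h1
    · rcases hb.lt_or_eq with h2 | h2
      · exact absurd h (F.disj hi' hj' hij h1 h2 ha' hb')
      · left
        rw [← h2]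
        simp only [Complex.ofReal_zero, zero_mul, add_zero, SetLike.mem_coe]
        exact Submodule.mem_span_singleton.mpr ⟨a, by rw [Complex.real_smul]⟩
    · right
      rw [← h1]
      simp only [Complex.ofReal_zero, zero_mul, zero_add, SetLike.mem_coe]
      exact Submodule.mem_span_singleton.mpr ⟨b, by rw [Complex.real_smul]⟩
  · intro i _
    exact (isCompact_tri _ _).measurableSet.nullMeasurableSet

theorem seg_mem {z w x : ℂ} : x ∈ segment ℝ z w ↔
    ∃ a b : ℝ, 0 ≤ a ∧ 0 ≤ b ∧ a + b = 1 ∧ x = a * z + b * w := by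
  constructor
  · rintro ⟨a, b, ha, hb, hab, rfl⟩
    exact ⟨a, b, ha, hb, hab, by rw [Complex.real_smul, Complex.real_smul]⟩
  · rintro ⟨a, b, ha, hb, hab, rfl⟩
    exact ⟨a, b, ha, hb, hab, by rw [Complex.real_smul, Complex.real_smul]⟩

theorem comb_unique (F : Fan N θ r) {i : ℕ} (hi : i < N) {a b a' b' : ℝ}
    (h : (a : ℂ) * vert θ r i + b * vert θ r (i + 1) =
      a' * vert θ r i + b' * vert θ r (i + 1)) : a = a' ∧ b = b' := by
  have hd := det_vert F hi
  have h1 := congrArg Complex.re h
  have h2 := congrArg Complex.im h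
  simp only [Complex.add_re, Complex.add_im, Complex.mul_re, Complex.mul_im, Complex.ofReal_re,
    Complex.ofReal_im, zero_mul, sub_zero, add_zero] at h1 h2
  set z := vert θ r i
  set w := vert θ r (i + 1)
  rw [det] at hd
  constructor
  · have : (a - a') * (z.re * w.im - z.im * w.re) = 0 := by linear_combination w.im * h1 - w.re * h2
    rcases mul_eq_zero.mp this with h3 | h3
    · linarith
    · exact absurd h3 hd.ne'
  · have : (b - b') * (z.re * w.im - z.im * w.re) = 0 := by linear_combination z.re * h2 - z.im * h1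
    rcases mul_eq_zero.mp this with h3 | h3
    · linarith
    · exact absurd h3 hd.ne'

theorem star_frontier (F : Fan N θ r) {U : Set ℂ} (hU : IsStar N θ r U) :
    frontier U = ⋃ i ∈ Finset.range N, segment ℝ (vert θ r i) (vert θ r (i + 1)) := by
  have hcl := star_closed F hU
  ext z
  simp only [Finset.mem_range, Set.mem_iUnion, exists_prop]
  rw [hcl.frontier_eq]
  constructor
  · rintro ⟨hz, hzi⟩
    obtain ⟨i, hi, a, b, ha, hb, rfl⟩ := F.cover z
    have hab := (hU i hi a b ha hb).mp hz
    refine ⟨i, hi, seg_mem.mpr ⟨a, b, ha, hb, ?_, rfl⟩⟩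
    by_contra hne
    have hlt : a + b < 1 := lt_of_le_of_ne hab hne
    apply hzi
    -- enlarge: `s z ∈ U` for some `s > 1`, and a neighbourhood
    by_contra hint
    rw [mem_interior_iff_mem_nhds] at hint
    set z : ℂ := (a : ℂ) * vert θ r i + b * vert θ r (i + 1) with hzdef
    -- points outside `U` converging to `z`
    have h1 : z ∈ closure Uᶜ := by
      rw [← compl_compl (closure Uᶜ), closure_compl, compl_compl]
      intro h
      exact hint (mem_interior_iff_mem_nhds.mp h)
    rw [mem_closure_iff_seq_limit] at h1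
    obtain ⟨x, hx, hlim⟩ := h1
    -- consider the closed sets `{a V + b W : a + b ≥ 1}`
    have hclos : ∀ j < N, IsClosed {y : ℂ | ∃ a b : ℝ, 0 ≤ a ∧ 0 ≤ b ∧ 1 ≤ a + b ∧
        y = a * vert θ r j + b * vert θ r (j + 1)} := by
      intro j hj
      have hd := det_vert F hj
      set v := vert θ r j
      set w := vert θ r (j + 1)
      have : {y : ℂ | ∃ a b : ℝ, 0 ≤ a ∧ 0 ≤ b ∧ 1 ≤ a + b ∧ y = a * v + b * w} =
          {y : ℂ | 0 ≤ det y w ∧ 0 ≤ det v y ∧ det v w ≤ det y w + det v y} := by
        ext y
        constructor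
        · rintro ⟨a, b, ha, hb, hab, rfl⟩
          have e1 : det (a * v + b * w) w = a * det v w := by simp [det]; ring
          have e2 : det v (a * v + b * w) = b * det v w := by simp [det]; ring
          refine ⟨?_, ?_, ?_⟩
          · rw [e1]; positivity
          · rw [e2]; positivity
          · rw [e1, e2]; nlinarith
        · rintro ⟨h1, h2, h3⟩
          refine ⟨det y w / det v w, det v y / det v w, by positivity, by positivity, ?_, ?_⟩
          · rw [← add_div, le_div_iff₀ hd]; linarith
          · obtain ⟨p, hp⟩ : ∃ p, p = det y w / det v w := ⟨_, rfl⟩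
            obtain ⟨q, hq⟩ : ∃ q, q = det v y / det v w := ⟨_, rfl⟩
            rw [← hp, ← hq]
            rw [eq_div_iff hd.ne'] at hp hq
            rw [det] at hd hp hq
            rw [det] at hp hq
            apply Complex.ext
            · simp only [Complex.add_re, Complex.mul_re, Complex.ofReal_re, Complex.ofReal_im,
                zero_mul, sub_zero]
              apply mul_left_cancel₀ hd.ne'
              linear_combination (-v.re) * hp - w.re * hq
            · simp only [Complex.add_im, Complex.mul_im, Complex.ofReal_re, Complex.ofReal_im,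
                zero_mul, add_zero]
              apply mul_left_cancel₀ hd.ne'
              linear_combination (-v.im) * hp - w.im * hq
      rw [this]
      have c1 : Continuous fun y : ℂ => det y w := by unfold det; fun_prop
      have c2 : Continuous fun y : ℂ => det v y := by unfold det; fun_prop
      exact IsClosed.inter (isClosed_le continuous_const c1) (IsClosed.inter
        (isClosed_le continuous_const c2) (isClosed_le continuous_const (c1.add c2)))
    have hfin : IsClosed (⋃ j ∈ Finset.range N, {y : ℂ | ∃ a b : ℝ, 0 ≤ a ∧ 0 ≤ b ∧ 1 ≤ a + b ∧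
        y = a * vert θ r j + b * vert θ r (j + 1)}) :=
      Set.Finite.isClosed_biUnion (Finset.finite_toSet _) fun j hj =>
        hclos j (Finset.mem_range.mp hj)
    have hzmem := hfin.mem_of_tendsto hlim (Filter.Eventually.of_forall fun m => ?_)
    · simp only [Finset.mem_range, Set.mem_iUnion, exists_prop] at hzmem
      obtain ⟨j, hj, a', b', ha', hb', hab', hz'⟩ := hzmem
      have h3 := (hU j hj a' b' ha' hb').mp (by rw [← hz']; exact hz)
      have h4 : a' + b' = 1 := le_antisymm h3 hab'
      -- scale up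
      set s : ℝ := 2 / (1 + (a + b)) with hs
      have hs1 : 1 < s := by rw [hs, lt_div_iff₀ (by positivity)]; linarith
      have h5 : ((s * a : ℝ) : ℂ) * vert θ r i + ((s * b : ℝ) : ℂ) * vert θ r (i + 1) ∈ U := by
        refine (hU i hi _ _ (by positivity) (by positivity)).mpr ?_
        rw [← mul_add, hs, div_mul_eq_mul_div, div_le_one (by positivity)]
        linarith
      have h6 : ((s * a' : ℝ) : ℂ) * vert θ r j + ((s * b' : ℝ) : ℂ) * vert θ r (j + 1) ∈ U := by
        have : ((s * a' : ℝ) : ℂ) * vert θ r j + ((s * b' : ℝ) : ℂ) * vert θ r (j + 1) =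
            ((s * a : ℝ) : ℂ) * vert θ r i + ((s * b : ℝ) : ℂ) * vert θ r (i + 1) := by
          have e : (s : ℂ) * z = s * (a' * vert θ r j + b' * vert θ r (j + 1)) := by rw [← hz']
          rw [hzdef] at e
          push_cast
          linear_combination -e
        rw [this]; exact h5
      have h7 := (hU j hj _ _ (by positivity) (by positivity)).mp h6
      rw [← mul_add, h4] at h7
      linarith
    · obtain ⟨j, hj, a', b', ha', hb', hx'⟩ := F.cover (x m)
      simp only [Finset.mem_range, Set.mem_iUnion, exists_prop]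
      refine ⟨j, hj, a', b', ha', hb', ?_, hx'⟩
      by_contra hc
      push Not at hc
      exact hx m (by rw [hx']; exact (hU j hj a' b' ha' hb').mpr hc.le)
  · rintro ⟨i, hi, hz⟩
    obtain ⟨a, b, ha, hb, hab, rfl⟩ := seg_mem.mp hz
    refine ⟨(hU i hi a b ha hb).mpr hab.le, ?_⟩
    intro hint
    rw [mem_interior_iff_mem_nhds] at hint
    set z : ℂ := (a : ℂ) * vert θ r i + b * vert θ r (i + 1) with hzdef
    have hlim : Filter.Tendsto (fun s : ℝ => (s : ℂ) * z) (nhds 1) (nhds z) := by
      have : Continuous fun s : ℝ => (s : ℂ) * z := by fun_prop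
      simpa using this.tendsto 1
    have h1 := (hlim.eventually hint)
    have h2 : ∃ s : ℝ, 1 < s ∧ (s : ℂ) * z ∈ U := by
      obtain ⟨δ, hδ, h3⟩ := Metric.eventually_nhds_iff.mp h1
      refine ⟨1 + δ / 2, by linarith, h3 ?_⟩
      rw [Real.dist_eq]
      simp only [add_sub_cancel_left]
      rw [abs_of_pos (by linarith)]
      linarith
    obtain ⟨s, hs, h3⟩ := h2
    have h4 : ((s * a : ℝ) : ℂ) * vert θ r i + ((s * b : ℝ) : ℂ) * vert θ r (i + 1) ∈ U := by
      rw [hzdef] at h3
      push_cast
      convert h3 using 1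
      ring
    have h5 := (hU i hi _ _ (by positivity) (by positivity)).mp h4
    rw [← mul_add, hab] at h5
    linarith

theorem star_length (F : Fan N θ r) {U : Set ℂ} (hU : IsStar N θ r U) :
    μH[1] (frontier U) = ENNReal.ofReal (∑ i ∈ Finset.range N,
      ‖vert θ r (i + 1) - vert θ r i‖) := by
  rw [star_frontier F hU, measure_biUnion_finset₀]
  · rw [ENNReal.ofReal_sum_of_nonneg fun i _ => norm_nonneg _]
    refine Finset.sum_congr rfl fun i _ => ?_
    rw [hausdorffMeasure_segment, edist_dist, dist_comm, dist_eq_norm]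
  · intro i hi j hj hij
    have hi' : i < N := Finset.mem_range.mp hi
    have hj' : j < N := Finset.mem_range.mp hj
    have : NullSingletonClass (μH[1] : Measure ℂ) :=
      Measure.nullSingletonClass_hausdorff ℂ one_pos
    refine measure_mono_null (t := {vert θ r i, vert θ r (i + 1)}) ?_
      ((Set.toFinite _).measure_zero _)
    rintro z ⟨hz1, hz2⟩
    obtain ⟨a, b, ha, hb, hab, rfl⟩ := seg_mem.mp hz1
    obtain ⟨a', b', ha', hb', -, h⟩ := seg_mem.mp hz2
    rcases ha.lt_or_eq with h1 | h1
    · rcases hb.lt_or_eq with h2 | h2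
      · exact absurd h (F.disj hi' hj' hij h1 h2 ha' hb')
      · left
        have : a = 1 := by linarith
        rw [← h2, this]; simp
    · right
      have : b = 1 := by linarith
      rw [← h1, this]; simp
  · intro i _
    have : IsCompact (segment ℝ (vert θ r i) (vert θ r (i + 1))) := by
      rw [← convexHull_pair]
      exact Set.Finite.isCompact_convexHull (𝕜 := ℝ) (Set.toFinite _)
    exact this.measurableSet.nullMeasurableSet

end Q47.Setup
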