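import Pool.Agent.Q47.Setup.Union

/-!
Evaluation of area and perimeter.
-/

set_option autoImplicit false

namespace Q47.Setup

open Complex Filter Topology MeasureTheory
open scoped MeasureTheory

variable {n k : ℕ} {κ : ℤ} {β ρ η : ℝ}

theorem sum_two (f : ℕ → ℝ) (M : ℕ) : ∑ i ∈ Finset.range (2 * M), f i =
    ∑ σ ∈ Finset.range M, (f (2 * σ) + f (2 * σ + 1)) := by
  induction M with
  | zero => simp
  | succ M ih =>
    rw [show 2 * (M + 1) = 2 * M + 1 + 1 by ring, Finset.sum_range_succ, Finset.sum_range_succ,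
      ih, Finset.sum_range_succ]
    ring

theorem sum_shift_one {f : ℤ → ℝ} {M : ℕ} (hf : ∀ x, f (x + M) = f x) :
    ∑ σ ∈ Finset.range M, f (σ + 1) = ∑ σ ∈ Finset.range M, f σ := by
  have h1 : ∑ σ ∈ Finset.range (M + 1), f σ = ∑ σ ∈ Finset.range M, f (σ + 1) + f 0 := by
    rw [Finset.sum_range_succ']
    push_cast
    rfl
  rw [Finset.sum_range_succ] at h1
  have h2 := hf 0
  rw [zero_add] at h2
  linarith

theorem sum_shift {f : ℤ → ℝ} {M : ℕ} (hf : ∀ x, f (x + M) = f x) (d : ℕ) :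
    ∑ σ ∈ Finset.range M, f (σ + d) = ∑ σ ∈ Finset.range M, f σ := by
  induction d with
  | zero => simp
  | succ d ih =>
    rw [← ih]
    have := sum_shift_one (f := fun x => f (x + d)) (M := M) (fun x => by
      have : x + M + d = x + d + M := by ring
      simp only [this, hf])
    rw [← this]
    refine Finset.sum_congr rfl fun σ _ => ?_
    congr 1
    push_cast
    ring

theorem sum_cos_zero (e : ℤ) (c : ℝ) {M : ℕ} (hn : n ≠ 0) (hM : n ∣ M) (he : ¬ (n : ℤ) ∣ e) :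
    ∑ τ ∈ Finset.range M, Real.cos (2 * Real.pi * e * τ / n + c) = 0 := by
  have hn' : (n : ℝ) ≠ 0 := by exact_mod_cast hn
  set ω : ℂ := dir (2 * Real.pi * e / n) with hω
  have h1 : ω ≠ 1 := by
    intro h
    rw [hω, ← dir_zero, dir_eq_iff] at h
    obtain ⟨m, hm⟩ := h
    apply he
    refine ⟨m, ?_⟩
    have h2 : (e : ℝ) = n * m := by
      have hp := Real.pi_pos.ne'
      field_simp at hm
      have h3 : (2 * Real.pi) * ((e : ℝ) - n * m) = 0 := by linear_combination hm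
      rcases mul_eq_zero.mp h3 with h4 | h4
      · exact absurd h4 (by positivity)
      · linarith
    exact_mod_cast h2
  have h2 : ∀ τ : ℕ, dir (2 * Real.pi * e * τ / n + c) = dir c * ω ^ τ := by
    intro τ
    rw [hω, dir, dir, dir, ← Complex.exp_nat_mul, ← Complex.exp_add]
    congr 1
    push_cast
    ring
  have h3 : ω ^ M = 1 := by
    obtain ⟨m, rfl⟩ := hM
    rw [hω, dir, ← Complex.exp_nat_mul, Complex.exp_eq_one_iff]
    refine ⟨e * m, ?_⟩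
    have : (n : ℂ) ≠ 0 := by exact_mod_cast hn
    push_cast
    field_simp
  have h4 : ∑ τ ∈ Finset.range M, ω ^ τ = 0 := by
    have := geom_sum_eq h1 M
    rw [this, h3]; simp
  have h5 : ∑ τ ∈ Finset.range M, dir (2 * Real.pi * e * τ / n + c) = 0 := by
    simp_rw [h2]
    rw [← Finset.mul_sum, h4, mul_zero]
  have h6 := congrArg Complex.re h5
  rw [Complex.re_sum] at h6
  simp_rw [dir_re] at h6
  exact h6

/-- The sum of the products of supports. -/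
noncomputable def SS (n k : ℕ) (κ : ℤ) (ρ η : ℝ) (d : ℕ) : ℝ :=
  ∑ τ ∈ Finset.range (k * n), hh n κ ρ η τ * hh n κ ρ η (τ + d)

theorem not_dvd (hn : 3 ≤ n) (hκ : (n : ℤ) ∣ κ * k - 1) :
    ¬ (n : ℤ) ∣ κ ∧ ¬ (n : ℤ) ∣ 2 * κ := by
  have h3 : ¬ (n : ℤ) ∣ 2 * κ := by
    intro h
    have h1 : (n : ℤ) ∣ 2 := by
      have h2 : (2 : ℤ) = 2 * κ * k - 2 * (κ * k - 1) := by ring
      rw [h2]
      exact dvd_sub (h.mul_right _) (hκ.mul_left _)
    have := Int.le_of_dvd (by norm_num) h1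
    omega
  exact ⟨fun h => h3 (h.mul_left _), h3⟩

theorem sum_hh (hn : 3 ≤ n) (hκ : (n : ℤ) ∣ κ * k - 1) :
    ∑ τ ∈ Finset.range (k * n), hh n κ ρ η τ = k * n * ρ := by
  have hn' : (n : ℝ) ≠ 0 := by positivity
  have h1 : ∀ τ : ℕ, hh n κ ρ η τ = ρ + η * Real.cos (2 * Real.pi * κ * τ / n + Real.pi / n) := by
    intro τ
    rw [hh]
    congr 3
    push_cast
    field_simp
  simp_rw [h1]
  rw [Finset.sum_add_distrib, ← Finset.mul_sum,
    sum_cos_zero κ _ (by omega) (Dvd.intro_left k rfl) (not_dvd hn hκ).1]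
  simp

theorem SS_eq (hn : 3 ≤ n) (hκ : (n : ℤ) ∣ κ * k - 1) (d : ℕ) :
    SS n k κ ρ η d = k * n * (ρ ^ 2 + η ^ 2 / 2 * Real.cos (2 * Real.pi * κ * d / n)) := by
  have hn' : (n : ℝ) ≠ 0 := by positivity
  have h1 : ∀ τ : ℕ, hh n κ ρ η τ * hh n κ ρ η (τ + d) =
      ρ ^ 2 + ρ * η * Real.cos (2 * Real.pi * κ * τ / n + Real.pi / n) +
      ρ * η * Real.cos (2 * Real.pi * κ * τ / n + (2 * κ * d + 1) * Real.pi / n) +
      η ^ 2 / 2 * Real.cos (2 * Real.pi * κ * d / n) +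
      η ^ 2 / 2 * Real.cos (2 * Real.pi * (2 * κ : ℤ) * τ / n + (2 * κ * d + 2) * Real.pi / n) := by
    intro τ
    rw [hh, hh]
    have e1 : (2 * (κ : ℝ) * ((τ : ℤ) : ℝ) + 1) * Real.pi / n =
      2 * Real.pi * κ * τ / n + Real.pi / n := by push_cast; field_simp
    have e2 : (2 * (κ : ℝ) * (((τ : ℤ) + (d : ℤ) : ℤ) : ℝ) + 1) * Real.pi / n =
      2 * Real.pi * κ * τ / n + (2 * κ * d + 1) * Real.pi / n := by push_cast; field_simp; ring
    rw [e1, e2]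
    set A := 2 * Real.pi * κ * τ / n + Real.pi / n with hA
    set B := 2 * Real.pi * κ * τ / n + (2 * κ * d + 1) * Real.pi / n with hB
    have e3 : 2 * Real.pi * κ * d / n = B - A := by rw [hA, hB]; field_simp; ring
    have e4 : 2 * Real.pi * (2 * κ : ℤ) * τ / n + (2 * κ * d + 2) * Real.pi / n = A + B := by
      rw [hA, hB]; push_cast; field_simp; ring
    rw [e3, e4, Real.cos_sub B A, Real.cos_add A B]
    ring
  rw [SS]
  simp_rw [h1]
  rw [Finset.sum_add_distrib, Finset.sum_add_distrib, Finset.sum_add_distrib,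
    Finset.sum_add_distrib, ← Finset.mul_sum, ← Finset.mul_sum, ← Finset.mul_sum _ _ (η ^ 2 / 2),
    ← Finset.mul_sum,
    sum_cos_zero κ _ (by omega) (Dvd.intro_left k rfl) (not_dvd hn hκ).1,
    sum_cos_zero κ _ (by omega) (Dvd.intro_left k rfl) (not_dvd hn hκ).1,
    sum_cos_zero (2 * κ) _ (by omega) (Dvd.intro_left k rfl) (not_dvd hn hκ).2]
  simp
  ring

theorem hh_shift_period (hn : 3 ≤ n) (d : ℤ) (x : ℤ) :
    hh n κ ρ η (x + (k * n : ℕ) + d) = hh n κ ρ η (x + d) := by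
  have : x + (k * n : ℕ) + d = x + d + n * k := by push_cast; ring
  rw [this, hh_period hn]

theorem sum_hh_shift (hn : 3 ≤ n) (hκ : (n : ℤ) ∣ κ * k - 1) (d : ℕ) :
    ∑ τ ∈ Finset.range (k * n), hh n κ ρ η (τ + d) = k * n * ρ := by
  rw [← sum_hh (η := η) hn hκ]
  exact sum_shift (f := fun x => hh n κ ρ η x) (fun x => by
    have := hh_shift_period (k := k) (κ := κ) (ρ := ρ) (η := η) hn 0 x
    simpa using this) d

theorem sum_prod_shift (hn : 3 ≤ n) (d e : ℕ) :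
    ∑ τ ∈ Finset.range (k * n), hh n κ ρ η (τ + e) * hh n κ ρ η (τ + e + d) =
      SS n k κ ρ η d := by
  rw [SS]
  exact sum_shift (f := fun x => hh n κ ρ η x * hh n κ ρ η (x + d)) (fun x => by
    have h1 := hh_shift_period (k := k) (κ := κ) (ρ := ρ) (η := η) hn 0 x
    have h2 := hh_shift_period (k := k) (κ := κ) (ρ := ρ) (η := η) hn d x
    simp only [add_zero] at h1
    simp only [h1, h2]) e

/-- Half a side at a convex corner. -/
noncomputable def sideB (n k : ℕ) (κ : ℤ) (ρ η : ℝ) (σ : ℤ) : ℝ :=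
  (hh n κ ρ η (σ + k) - hh n κ ρ η σ * Real.cos (D0 n)) / Real.sin (D0 n) -
  (hh n κ ρ η (σ + k - 1) - hh n κ ρ η σ * Real.cos (D1 n k)) / Real.sin (D1 n k)

noncomputable def sideC (n k : ℕ) (κ : ℤ) (ρ η : ℝ) (σ : ℤ) : ℝ :=
  (hh n κ ρ η (σ + k) * Real.cos (D1 n k) - hh n κ ρ η (σ + 1)) / Real.sin (D1 n k) -
  (hh n κ ρ η (σ + k) * Real.cos (D0 n) - hh n κ ρ η σ) / Real.sin (D0 n)

theorem VV_even (σ : ℕ) : VV n k κ β ρ η (2 * σ) = Cp n k κ β ρ η σ := by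
  rw [VV, if_pos (by omega)]
  have : 2 * σ / 2 = σ := by omega
  rw [this]

theorem VV_odd (σ : ℕ) : VV n k κ β ρ η (2 * σ + 1) = Bp n k κ β ρ η σ := by
  rw [VV, if_neg (by omega)]
  have : (2 * σ + 1) / 2 = σ := by omega
  rw [this]

theorem VV_even' (σ : ℕ) : VV n k κ β ρ η (2 * σ + 1 + 1) =
    Cp n k κ β ρ η ((σ : ℤ) + 1) := by
  rw [VV, if_pos (by omega)]
  have : (2 * σ + 1 + 1) / 2 = σ + 1 := by omega
  rw [this]
  push_cast
  rfl

theorem det_even (σ : ℤ) : det (Cp n k κ β ρ η σ) (Bp n k κ β ρ η σ) =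
    hh n κ ρ η σ * sideB n k κ ρ η σ := by
  rw [Cp, Bp, det_pnt, sideB]

theorem norm_even (σ : ℤ) : ‖Bp n k κ β ρ η σ - Cp n k κ β ρ η σ‖ =
    |sideB n k κ ρ η σ| := by
  rw [Cp, Bp, norm_pnt_sub, sideB]

theorem Cp_succ (hn : 3 ≤ n) (hk : 2 ≤ k) (σ : ℤ) : Cp n k κ β ρ η (σ + 1) =
    pnt (ph n k β (σ + k)) (hh n κ ρ η (σ + k))
      ((hh n κ ρ η (σ + k) * Real.cos (D1 n k) - hh n κ ρ η (σ + 1)) / Real.sin (D1 n k)) := by
  rw [Cp_eq' hn hk]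
  have : σ + 1 + k - 1 = σ + k := by ring
  rw [this]

theorem det_odd (hn : 3 ≤ n) (hk : 2 ≤ k) (σ : ℤ) :
    det (Bp n k κ β ρ η σ) (Cp n k κ β ρ η (σ + 1)) =
    hh n κ ρ η (σ + k) * sideC n k κ ρ η σ := by
  rw [Cp_succ hn hk, Bp_eq' hn hk, det_pnt, sideC]

theorem norm_odd (hn : 3 ≤ n) (hk : 2 ≤ k) (σ : ℤ) :
    ‖Cp n k κ β ρ η (σ + 1) - Bp n k κ β ρ η σ‖ = |sideC n k κ ρ η σ| := by
  rw [Cp_succ hn hk, Bp_eq' hn hk, norm_pnt_sub, sideC]

theorem side_pos (hρ : 0 < ρ) (hn : 3 ≤ n) (hk : 2 ≤ k) (G : Good n k κ β ρ η) {σ : ℕ}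
    (hσ : σ < k * n) : 0 < sideB n k κ ρ η σ ∧ 0 < sideC n k κ ρ η σ := by
  have F := fan hn hk G
  have h1 := det_vert F (i := 2 * σ) (by omega)
  have h2 := det_vert F (i := 2 * σ + 1) (by omega)
  rw [vert_eq hρ hn hk, vert_eq hρ hn hk, VV_even, VV_odd, det_even] at h1
  rw [vert_eq hρ hn hk, vert_eq hρ hn hk, VV_even', VV_odd, det_odd hn hk] at h2
  exact ⟨(pos_iff_pos_of_mul_pos h1).mp (G.hpos _), (pos_iff_pos_of_mul_pos h2).mp (G.hpos _)⟩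

/-- The perimeter. -/
theorem perimeter (hρ : 0 < ρ) (hn : 3 ≤ n) (hk : 2 ≤ k) (hκ : (n : ℤ) ∣ κ * k - 1)
    (G : Good n k κ β ρ η) : μH[1] (frontier (UU n k κ β ρ η)) = ENNReal.ofReal
      (2 * (k * n * ρ) * ((1 - Real.cos (D0 n)) / Real.sin (D0 n) -
        (1 - Real.cos (D1 n k)) / Real.sin (D1 n k))) := by
  rw [star_length (fan hn hk G) (isStar hρ hn hk G)]
  congr 1
  simp only [vert_eq hρ hn hk]
  rw [sum_two]
  have h1 : ∀ σ ∈ Finset.range (k * n),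
      ‖VV n k κ β ρ η (2 * σ + 1) - VV n k κ β ρ η (2 * σ)‖ +
      ‖VV n k κ β ρ η (2 * σ + 1 + 1) - VV n k κ β ρ η (2 * σ + 1)‖ =
      hh n κ ρ η ((σ : ℤ) + (k : ℕ)) * ((1 - Real.cos (D0 n)) / Real.sin (D0 n)) +
      hh n κ ρ η (σ : ℤ) * ((1 - Real.cos (D0 n)) / Real.sin (D0 n)) +
      hh n κ ρ η (σ : ℤ) * (Real.cos (D1 n k) / Real.sin (D1 n k)) +
      hh n κ ρ η ((σ : ℤ) + (k : ℕ)) * (Real.cos (D1 n k) / Real.sin (D1 n k)) -
      hh n κ ρ η ((σ : ℤ) + ((k - 1 : ℕ) : ℕ)) * (1 / Real.sin (D1 n k)) -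
      hh n κ ρ η ((σ : ℤ) + (1 : ℕ)) * (1 / Real.sin (D1 n k)) := by
    intro σ hσ
    obtain ⟨g1, g2⟩ := side_pos hρ hn hk G (Finset.mem_range.mp hσ)
    rw [VV_even', VV_even, VV_odd, norm_even, norm_odd hn hk, abs_of_pos g1, abs_of_pos g2,
      sideB, sideC]
    have e : (σ : ℤ) + k - 1 = (σ : ℤ) + ((k - 1 : ℕ) : ℕ) := by
      push_cast [Nat.cast_sub (by omega : 1 ≤ k)]; ring
    rw [e]
    push_cast
    ring
  rw [Finset.sum_congr rfl h1]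
  simp only [Finset.sum_sub_distrib, Finset.sum_add_distrib, ← Finset.sum_mul]
  rw [sum_hh hn hκ, sum_hh_shift hn hκ k, sum_hh_shift hn hκ (k - 1), sum_hh_shift hn hκ 1]
  ring

/-- The area. -/
theorem area (hρ : 0 < ρ) (hn : 3 ≤ n) (hk : 2 ≤ k) (hκ : (n : ℤ) ∣ κ * k - 1)
    (G : Good n k κ β ρ η) : volume (UU n k κ β ρ η) = ENNReal.ofReal
      (k * n * ρ ^ 2 * ((1 - Real.cos (D0 n)) / Real.sin (D0 n) -
        (1 - Real.cos (D1 n k)) / Real.sin (D1 n k)) -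
      k * n * η ^ 2 / 2 * ((Real.cos (2 * Real.pi * (κ - 1) / n) - Real.cos (D1 n k)) /
        Real.sin (D1 n k))) := by
  have hn' : (n : ℝ) ≠ 0 := by positivity
  rw [star_volume (fan hn hk G) (isStar hρ hn hk G)]
  congr 1
  simp only [vert_eq hρ hn hk]
  rw [sum_two]
  have h1 : ∀ σ ∈ Finset.range (k * n),
      det (VV n k κ β ρ η (2 * σ)) (VV n k κ β ρ η (2 * σ + 1)) / 2 +
      det (VV n k κ β ρ η (2 * σ + 1)) (VV n k κ β ρ η (2 * σ + 1 + 1)) / 2 =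
      (hh n κ ρ η (σ : ℤ) * hh n κ ρ η ((σ : ℤ) + (k : ℕ))) * (1 / Real.sin (D0 n)) -
      (hh n κ ρ η (σ : ℤ) * hh n κ ρ η ((σ : ℤ) + (0 : ℕ))) *
        (Real.cos (D0 n) / Real.sin (D0 n) / 2) -
      (hh n κ ρ η ((σ : ℤ) + (k : ℕ)) * hh n κ ρ η ((σ : ℤ) + (k : ℕ) + (0 : ℕ))) *
        (Real.cos (D0 n) / Real.sin (D0 n) / 2) -
      (hh n κ ρ η (σ : ℤ) * hh n κ ρ η ((σ : ℤ) + ((k - 1 : ℕ) : ℕ))) *
        (1 / Real.sin (D1 n k) / 2) -
      (hh n κ ρ η ((σ : ℤ) + (1 : ℕ)) * hh n κ ρ η ((σ : ℤ) + (1 : ℕ) + ((k - 1 : ℕ) : ℕ))) *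
        (1 / Real.sin (D1 n k) / 2) +
      (hh n κ ρ η (σ : ℤ) * hh n κ ρ η ((σ : ℤ) + (0 : ℕ))) *
        (Real.cos (D1 n k) / Real.sin (D1 n k) / 2) +
      (hh n κ ρ η ((σ : ℤ) + (k : ℕ)) * hh n κ ρ η ((σ : ℤ) + (k : ℕ) + (0 : ℕ))) *
        (Real.cos (D1 n k) / Real.sin (D1 n k) / 2) := by
    intro σ hσ
    rw [VV_even', VV_even, VV_odd, det_even, det_odd hn hk, sideB, sideC]
    have e : (σ : ℤ) + k - 1 = (σ : ℤ) + ((k - 1 : ℕ) : ℕ) := by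
      push_cast [Nat.cast_sub (by omega : 1 ≤ k)]; ring
    have e' : (σ : ℤ) + (1 : ℕ) + ((k - 1 : ℕ) : ℕ) = (σ : ℤ) + k := by
      push_cast [Nat.cast_sub (by omega : 1 ≤ k)]; ring
    rw [e, e']
    simp only [Nat.cast_zero, add_zero, Nat.cast_one]
    ring
  rw [Finset.sum_congr rfl h1]
  simp only [Finset.sum_sub_distrib, Finset.sum_add_distrib, ← Finset.sum_mul]
  rw [sum_prod_shift hn 0 k, sum_prod_shift hn (k - 1) 1]
  have hS : ∀ d : ℕ, ∑ τ ∈ Finset.range (k * n), hh n κ ρ η τ * hh n κ ρ η (τ + d) =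
    SS n k κ ρ η d := fun d => rfl
  rw [hS, hS, hS, SS_eq hn hκ, SS_eq hn hκ, SS_eq hn hκ]
  obtain ⟨m, hm⟩ := hκ
  have hm' : (κ : ℝ) * k - 1 = n * m := by exact_mod_cast hm
  have c1 : Real.cos (2 * Real.pi * κ * k / n) = Real.cos (D0 n) := by
    have : 2 * Real.pi * κ * k / n = D0 n + m * (2 * Real.pi) := by
      rw [D0]
      field_simp
      linear_combination hm'
    rw [this, Real.cos_add_int_mul_two_pi]
  have c2 : Real.cos (2 * Real.pi * κ * ((k - 1 : ℕ) : ℝ) / n) =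
      Real.cos (2 * Real.pi * (κ - 1) / n) := by
    have : 2 * Real.pi * κ * ((k - 1 : ℕ) : ℝ) / n = -(2 * Real.pi * (κ - 1) / n) +
        m * (2 * Real.pi) := by
      push_cast [Nat.cast_sub (by omega : 1 ≤ k)]
      field_simp
      linear_combination hm'
    rw [this, Real.cos_add_int_mul_two_pi, Real.cos_neg]
  have c3 : Real.cos (2 * Real.pi * κ * ((0 : ℕ) : ℝ) / n) = 1 := by simp
  rw [c1, c2, c3]
  have s0 := (sin_D0 hn).ne'
  have s1 := (sin_D1 hn hk).ne'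
  field_simp
  ring

end Q47.Setup
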