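import Pool.Agent.Q47.Setup.Lines

/-!
Area and perimeter of the union.
-/

set_option autoImplicit false

namespace Q47.Setup

open Complex Filter Topology MeasureTheory
open scoped MeasureTheory

variable {n k : ℕ} {κ : ℤ} {β ρ η : ℝ}

/-- All conditions on the size of the shift. -/
structure Good (n k : ℕ) (κ : ℤ) (β ρ η : ℝ) : Prop where
  hpos : ∀ τ, 0 < hh n κ ρ η τ
  bin : ∀ σ ∈ Finset.range (k * n + 1), ∀ j ∈ Finset.range n,
    LL (ph n k β (σ + j * k)) (Bp n k κ β ρ η σ) ≤ hh n κ ρ η (σ + j * k)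
  cin : ∀ σ ∈ Finset.range (k * n + 1), ∀ j ∈ Finset.range n,
    LL (ph n k β (σ + j * k)) (Cp n k κ β ρ η σ) ≤ hh n κ ρ η (σ + j * k)
  cin' : ∀ σ ∈ Finset.range (k * n + 1), ∀ j ∈ Finset.range n,
    LL (ph n k β (σ + (j * k - 1))) (Cp n k κ β ρ η σ) ≤ hh n κ ρ η (σ + (j * k - 1))
  cout : ∀ σ ∈ Finset.range (k * n + 1), ∀ q ∈ Finset.range k,
    hh n κ ρ η (σ + q) ≤ LL (ph n k β (σ + q)) (Cp n k κ β ρ η σ)
  bout : ∀ σ ∈ Finset.range (k * n + 1), ∀ q ∈ Finset.range (k + 1),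
    hh n κ ρ η (σ + q) ≤ LL (ph n k β (σ + q)) (Bp n k κ β ρ η σ)
  vne : ∀ i ∈ Finset.range (2 * (k * n) + 1), VV n k κ β ρ η i ≠ 0
  varg : ∀ i ∈ Finset.range (2 * (k * n) + 1),
    |(VV n k κ β ρ η i / VV n k κ β ρ 0 i).arg| < Real.pi / (4 * (k * n))

theorem continuous_VV (i : ℕ) : Continuous fun η => VV n k κ β ρ η i := by
  unfold VV
  split_ifs
  · exact continuous_Cp _
  · exact continuous_Bp _

/-- The angles of the corners of the basic setup. -/
noncomputable def th0 (n k : ℕ) (β : ℝ) (i : ℕ) : ℝ :=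
  β + ((i : ℝ) + 2 * k - 1) * Real.pi / (k * n)

theorem VV_zero (hρ : 0 < ρ) (hn : 3 ≤ n) (hk : 2 ≤ k) (i : ℕ) :
    ∃ R : ℝ, 0 < R ∧ VV n k κ β ρ 0 i = R * dir (th0 n k β i) := by
  have h1 : (k : ℝ) ≠ 0 := by positivity
  have h2 : (n : ℝ) ≠ 0 := by positivity
  rw [VV]
  obtain ⟨s, hs⟩ : ∃ s, s = i / 2 := ⟨_, rfl⟩
  rw [← hs]
  split_ifs with h
  · refine ⟨_, div_pos hρ (cos_D1_half hn hk), ?_⟩
    rw [Cp_zero hn hk]
    congr 2
    have h3 : (i : ℝ) = 2 * (s : ℝ) := by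
      have : i = 2 * s := by omega
      exact_mod_cast this
    rw [th0, ph, D1_half, h3]
    push_cast
    field_simp
    ring
  · refine ⟨_, div_pos hρ (cos_D0_half hn), ?_⟩
    rw [Bp_zero hn]
    congr 2
    have h3 : (i : ℝ) = 2 * (s : ℝ) + 1 := by
      have : i = 2 * s + 1 := by omega
      exact_mod_cast this
    rw [th0, ph, D0_half hk, h3]
    push_cast
    field_simp
    ring

theorem VV_zero_ne (hρ : 0 < ρ) (hn : 3 ≤ n) (hk : 2 ≤ k) (i : ℕ) :
    VV n k κ β ρ 0 i ≠ 0 := by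
  obtain ⟨R, hR, h⟩ := VV_zero (κ := κ) (β := β) hρ hn hk i
  rw [h]
  refine mul_ne_zero ?_ (dir_ne _)
  exact_mod_cast hR.ne'

theorem eventually_good (hρ : 0 < ρ) (hn : 3 ≤ n) (hk : 2 ≤ k) :
    ∀ᶠ η in 𝓝 (0 : ℝ), Good n k κ β ρ η := by
  have h0 : ∀ᶠ η in 𝓝 (0 : ℝ), |η| < ρ := by
    have : Continuous fun η : ℝ => |η| := continuous_abs
    have h := this.tendsto 0
    simp only [abs_zero] at h
    exact h.eventually_lt_const hρ
  have h1 := (Filter.eventually_all_finset (Finset.range (k * n + 1))).mpr fun σ _ =>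
    (Filter.eventually_all_finset (Finset.range n)).mpr fun j hj =>
      B_inside (κ := κ) (β := β) hρ hn hk (σ : ℤ) j (Finset.mem_range.mp hj)
  have h2 := (Filter.eventually_all_finset (Finset.range (k * n + 1))).mpr fun σ _ =>
    (Filter.eventually_all_finset (Finset.range n)).mpr fun j hj =>
      C_inside (κ := κ) (β := β) hρ hn hk (σ : ℤ) j (Finset.mem_range.mp hj)
  have h3 := (Filter.eventually_all_finset (Finset.range (k * n + 1))).mpr fun σ _ =>
    (Filter.eventually_all_finset (Finset.range n)).mpr fun j hj =>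
      C_inside' (κ := κ) (β := β) hρ hn hk (σ : ℤ) j (Finset.mem_range.mp hj)
  have h4 := (Filter.eventually_all_finset (Finset.range (k * n + 1))).mpr fun σ _ =>
    (Filter.eventually_all_finset (Finset.range k)).mpr fun q hq =>
      C_outside (κ := κ) (β := β) hρ hn hk (σ : ℤ) q (Finset.mem_range.mp hq)
  have h5 := (Filter.eventually_all_finset (Finset.range (k * n + 1))).mpr fun σ _ =>
    (Filter.eventually_all_finset (Finset.range (k + 1))).mpr fun q hq =>
      B_outside (κ := κ) (β := β) hρ hn hk (σ : ℤ) q (by have := Finset.mem_range.mp hq; omega)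
  have h6 : ∀ᶠ η in 𝓝 (0 : ℝ), ∀ i ∈ Finset.range (2 * (k * n) + 1),
      VV n k κ β ρ η i ≠ 0 := (Filter.eventually_all_finset _).mpr fun i _ =>
    ((continuous_VV i).tendsto 0).eventually_ne (VV_zero_ne hρ hn hk i)
  have h7 : ∀ᶠ η in 𝓝 (0 : ℝ), ∀ i ∈ Finset.range (2 * (k * n) + 1),
      |(VV n k κ β ρ η i / VV n k κ β ρ 0 i).arg| < Real.pi / (4 * (k * n)) := by
    refine (Filter.eventually_all_finset _).mpr fun i _ => ?_
    have hne := VV_zero_ne (κ := κ) (β := β) hρ hn hk i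
    have hc : Continuous fun η => VV n k κ β ρ η i / VV n k κ β ρ 0 i :=
      (continuous_VV i).div_const _
    have ht := hc.tendsto 0
    have e1 : VV n k κ β ρ 0 i / VV n k κ β ρ 0 i = 1 := div_self hne
    simp only [e1] at ht
    have ha : ContinuousAt Complex.arg 1 := Complex.continuousAt_arg (by simp)
    have h8 := (ha.tendsto.comp ht).abs
    simp only [Function.comp_def, Complex.arg_one, abs_zero] at h8
    refine h8.eventually_lt_const ?_
    have := Real.pi_pos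
    positivity
  filter_upwards [h0, h1, h2, h3, h4, h5, h6, h7] with η g0 g1 g2 g3 g4 g5 g6 g7
  refine ⟨fun τ => ?_, g1, g2, g3, g4, g5, g6, g7⟩
  rw [hh]
  have h9 := Real.abs_cos_le_one ((2 * κ * τ + 1) * Real.pi / n)
  have h10 : |η * Real.cos ((2 * κ * τ + 1) * Real.pi / n)| ≤ |η| := by
    rw [abs_mul]
    exact mul_le_of_le_one_right (abs_nonneg _) h9
  have := neg_abs_le (η * Real.cos ((2 * κ * τ + 1) * Real.pi / n))
  linarith

/-- The angles of the corners. -/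
noncomputable def th (n k : ℕ) (κ : ℤ) (β ρ η : ℝ) (i : ℕ) : ℝ :=
  th0 n k β i + (VV n k κ β ρ η i / VV n k κ β ρ 0 i).arg

/-- The distances of the corners from the origin. -/
noncomputable def rr (n k : ℕ) (κ : ℤ) (β ρ η : ℝ) (i : ℕ) : ℝ := ‖VV n k κ β ρ η i‖

theorem vert_eq (hρ : 0 < ρ) (hn : 3 ≤ n) (hk : 2 ≤ k) (i : ℕ) :
    vert (th n k κ β ρ η) (rr n k κ β ρ η) i = VV n k κ β ρ η i := by
  obtain ⟨R, hR, h⟩ := VV_zero (κ := κ) (β := β) hρ hn hk i
  have hne := VV_zero_ne (κ := κ) (β := β) hρ hn hk i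
  obtain ⟨w, hw⟩ : ∃ w, w = VV n k κ β ρ η i / VV n k κ β ρ 0 i := ⟨_, rfl⟩
  have h1 : VV n k κ β ρ η i = VV n k κ β ρ 0 i * w := by rw [hw]; field_simp
  rw [vert, th, rr, ← hw, dir_add]
  have h2 : w = ‖w‖ * dir w.arg := (Complex.norm_mul_exp_arg_mul_I w).symm
  have h3 : ‖VV n k κ β ρ η i‖ = R * ‖w‖ := by
    rw [h1, norm_mul, h, norm_mul, norm_dir, Complex.norm_real, Real.norm_of_nonneg hR.le,
      mul_one]
  rw [h3, h1, h]
  conv_rhs => rw [h2]
  push_cast
  ring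

theorem phadd_period (hn : 3 ≤ n) (hk : 2 ≤ k) (σ : ℤ) :
    ph n k β (σ + k * n) = ph n k β σ + 2 * Real.pi := by
  have h1 : (k : ℝ) ≠ 0 := by positivity
  have h2 : (n : ℝ) ≠ 0 := by positivity
  have := ph_add (n := n) (k := k) (β := β) hn hk σ (k * n)
  rw [this]
  push_cast
  field_simp

theorem hh_period' (hn : 3 ≤ n) (σ : ℤ) : hh n κ ρ η (σ + k * n) = hh n κ ρ η σ := by
  rw [mul_comm (k : ℤ) n]
  exact hh_period hn σ k

theorem Cp_period (hn : 3 ≤ n) (hk : 2 ≤ k) (σ : ℤ) :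
    Cp n k κ β ρ η (σ + k * n) = Cp n k κ β ρ η σ := by
  rw [Cp, Cp, hh_period' hn, phadd_period hn hk]
  have e : σ + k * n + k - 1 = (σ + k - 1) + k * n := by ring
  rw [e, hh_period' hn, pnt, pnt, dir_add, dir_two_pi, mul_one]

theorem VV_period (hn : 3 ≤ n) (hk : 2 ≤ k) :
    VV n k κ β ρ η (2 * (k * n)) = VV n k κ β ρ η 0 := by
  rw [VV, VV, if_pos (by omega), if_pos (by omega)]
  have e : 2 * (k * n) / 2 = k * n := by omega
  rw [e]
  have := Cp_period (κ := κ) (β := β) (ρ := ρ) (η := η) hn hk 0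
  simpa using this

theorem fan (hn : 3 ≤ n) (hk : 2 ≤ k) (G : Good n k κ β ρ η) :
    Fan (2 * (k * n)) (th n k κ β ρ η) (rr n k κ β ρ η) := by
  have hp := Real.pi_pos
  have hk' : (2 : ℝ) ≤ k := by exact_mod_cast hk
  have hn' : (3 : ℝ) ≤ n := by exact_mod_cast hn
  have hM : (0 : ℝ) < (k : ℝ) * n := by positivity
  have hstep : ∀ i : ℕ, th0 n k β (i + 1) - th0 n k β i = Real.pi / (k * n) := by
    intro i
    rw [th0, th0]
    push_cast
    field_simp
    ring
  have hsmall : Real.pi / (4 * (k * n)) = Real.pi / (k * n) / 4 := by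
    rw [div_div, mul_comm ((k : ℝ) * n) 4]
  have hpos : 0 < Real.pi / (k * n) := by positivity
  have hle : Real.pi / (k * n) ≤ Real.pi / 6 := by
    apply div_le_div_of_nonneg_left hp.le (by norm_num)
    nlinarith
  have key : ∀ i < 2 * (k * n), |th n k κ β ρ η (i + 1) - th n k κ β ρ η i - Real.pi / (k * n)| <
      Real.pi / (k * n) / 2 := by
    intro i hi
    have h1 := G.varg i (Finset.mem_range.mpr (by omega))
    have h2 := G.varg (i + 1) (Finset.mem_range.mpr (by omega))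
    rw [hsmall] at h1 h2
    rw [th, th]
    have h3 := hstep i
    rw [abs_lt] at h1 h2 ⊢
    constructor
    · linarith [h1.1, h1.2, h2.1, h2.2]
    · linarith [h1.1, h1.2, h2.1, h2.2]
  refine ⟨by positivity, fun i hi => ?_, fun i hi => ?_, fun i hi => ?_, ?_, ?_⟩
  · exact norm_pos_iff.mpr (G.vne i (Finset.mem_range.mpr (by omega)))
  · have := abs_lt.mp (key i hi)
    linarith [this.1]
  · have := abs_lt.mp (key i hi)
    linarith [this.2]
  · rw [th, th, VV_period hn hk, VV_period hn hk, th0, th0]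
    push_cast
    field_simp
    ring
  · rw [rr, rr, VV_period hn hk]

theorem reduce_in (hn : 3 ≤ n) (hk : 2 ≤ k) {σ : ℤ} {x : ℂ}
    (h : ∀ j ∈ Finset.range n, LL (ph n k β (σ + (j : ℤ) * k)) x ≤ hh n κ ρ η (σ + (j : ℤ) * k))
    (j : ℤ) : LL (ph n k β (σ + j * k)) x ≤ hh n κ ρ η (σ + j * k) := by
  have hn0 : (n : ℤ) ≠ 0 := by positivity
  have h1 : 0 ≤ j % n := Int.emod_nonneg _ hn0
  have h2 : j % n < n := Int.emod_lt_of_pos _ (by positivity)
  obtain ⟨m, hm⟩ := Int.eq_ofNat_of_zero_le h1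
  have h3 := h m (Finset.mem_range.mpr (by omega))
  have h4 : j = m + n * (j / n) := by
    have := Int.emod_add_mul_ediv j n
    omega
  have e1 : σ + j * k = (σ + (m : ℤ) * k) + k * n * (j / n) := by
    conv_lhs => rw [h4]
    ring
  have e2 : (σ + (m : ℤ) * k) + k * n * (j / n) = (σ + (m : ℤ) * k) + n * (k * (j / n)) := by ring
  rw [e1, LL_period hn hk, e2, hh_period hn]
  exact h3

theorem reduce_class (hk : 2 ≤ k) (σ m : ℤ) : ∃ q : ℕ, q < k ∧ ∃ j : ℤ, m + j * k = σ + q := by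
  have hk0 : (k : ℤ) ≠ 0 := by positivity
  have h1 : 0 ≤ (m - σ) % k := Int.emod_nonneg _ hk0
  have h2 : (m - σ) % k < k := Int.emod_lt_of_pos _ (by positivity)
  obtain ⟨q, hq⟩ := Int.eq_ofNat_of_zero_le h1
  refine ⟨q, by omega, -((m - σ) / k), ?_⟩
  have := Int.emod_add_mul_ediv (m - σ) k
  rw [hq] at this
  linear_combination -this

theorem star_iff {x y : ℂ} {hpos : ∀ τ, 0 < hh n κ ρ η τ} {m0 : ℤ}
    (hin : ∀ j : ℤ, LL (ph n k β (m0 + j * k)) x ≤ hh n κ ρ η (m0 + j * k))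
    (hin' : ∀ j : ℤ, LL (ph n k β (m0 + j * k)) y ≤ hh n κ ρ η (m0 + j * k))
    (hout : ∀ m : ℤ, ∃ j : ℤ, hh n κ ρ η (m + j * k) ≤ LL (ph n k β (m + j * k)) x ∧
      hh n κ ρ η (m + j * k) ≤ LL (ph n k β (m + j * k)) y) (a b : ℝ) (ha : 0 ≤ a) (hb : 0 ≤ b) :
    (a : ℂ) * x + b * y ∈ UU n k κ β ρ η ↔ a + b ≤ 1 := by
  constructor
  · rintro ⟨m, hm⟩
    obtain ⟨j, h1, h2⟩ := hout m
    have h3 := hm j
    rw [LL_add] at h3
    have h4 := hpos (m + j * k)
    by_contra hc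
    push Not at hc
    nlinarith [mul_le_mul_of_nonneg_left h1 ha, mul_le_mul_of_nonneg_left h2 hb]
  · intro hab
    refine ⟨m0, fun j => ?_⟩
    rw [LL_add]
    have h4 := hpos (m0 + j * k)
    nlinarith [mul_le_mul_of_nonneg_left (hin j) ha, mul_le_mul_of_nonneg_left (hin' j) hb]

theorem isStar (hρ : 0 < ρ) (hn : 3 ≤ n) (hk : 2 ≤ k) (G : Good n k κ β ρ η) :
    IsStar (2 * (k * n)) (th n k κ β ρ η) (rr n k κ β ρ η) (UU n k κ β ρ η) := by
  intro i hi a b ha hb
  rw [vert_eq hρ hn hk, vert_eq hρ hn hk]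
  rcases Nat.even_or_odd' i with ⟨σ, rfl | rfl⟩
  · have e1 : VV n k κ β ρ η (2 * σ) = Cp n k κ β ρ η σ := by
      rw [VV, if_pos (by omega)]
      have : 2 * σ / 2 = σ := by omega
      rw [this]
    have e2 : VV n k κ β ρ η (2 * σ + 1) = Bp n k κ β ρ η σ := by
      rw [VV, if_neg (by omega)]
      have : (2 * σ + 1) / 2 = σ := by omega
      rw [this]
    rw [e1, e2]
    have hσ : σ ∈ Finset.range (k * n + 1) := Finset.mem_range.mpr (by omega)
    refine star_iff (hpos := G.hpos) (m0 := σ) (reduce_in hn hk (G.cin σ hσ))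
      (reduce_in hn hk (G.bin σ hσ)) (fun m => ?_) a b ha hb
    obtain ⟨q, hq, j, hj⟩ := reduce_class hk σ m
    refine ⟨j, ?_, ?_⟩
    · rw [hj]; exact G.cout σ hσ q (Finset.mem_range.mpr hq)
    · rw [hj]; exact G.bout σ hσ q (Finset.mem_range.mpr (by omega))
  · have e1 : VV n k κ β ρ η (2 * σ + 1) = Bp n k κ β ρ η σ := by
      rw [VV, if_neg (by omega)]
      have : (2 * σ + 1) / 2 = σ := by omega
      rw [this]
    have e2 : VV n k κ β ρ η (2 * σ + 1 + 1) = Cp n k κ β ρ η ((σ + 1 : ℕ) : ℤ) := by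
      rw [VV, if_pos (by omega)]
      have : (2 * σ + 1 + 1) / 2 = σ + 1 := by omega
      rw [this]
    rw [e1, e2]
    have hσ : σ ∈ Finset.range (k * n + 1) := Finset.mem_range.mpr (by omega)
    have hσ1 : σ + 1 ∈ Finset.range (k * n + 1) := Finset.mem_range.mpr (by omega)
    refine star_iff (hpos := G.hpos) (m0 := σ) (reduce_in hn hk (G.bin σ hσ))
      (reduce_in hn hk ?_) (fun m => ?_) a b ha hb
    · intro j hj
      have h := G.cin' (σ + 1) hσ1 j hj
      have e : (((σ + 1 : ℕ) : ℤ) + ((j : ℤ) * k - 1)) = (σ : ℤ) + (j : ℤ) * k := by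
        push_cast; ring
      rw [e] at h
      exact h
    · obtain ⟨q, hq, j, hj⟩ := reduce_class hk (σ + 1) m
      refine ⟨j, ?_, ?_⟩
      · rw [hj]
        have h := G.bout σ hσ (q + 1) (Finset.mem_range.mpr (by omega))
        have e : (σ : ℤ) + ((q + 1 : ℕ) : ℤ) = σ + 1 + q := by push_cast; ring
        rw [e] at h
        exact h
      · rw [hj]
        have h := G.cout (σ + 1) hσ1 q (Finset.mem_range.mpr hq)
        push_cast at h ⊢
        exact h

end Q47.Setup
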